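import Pool.Agent.Run7.h555.P15.Ap
import Pool.Agent.Run7.h555.Q4.Z5

/-!
The arithmetic of the minimal model of the twist by `-n` of `X_0(15)`: statements of the independent
parts (M6).  The model is `CI n = WT (-n)`, isomorphic to `y² = x (x + 9 n) (x + 25 n)` by
`X = 4 x - 13 n`, `Y = 4 (2 y + x + 1)`.
-/

set_option autoImplicit false

open NumberField IsDedekindDomain WeierstrassCurve MeasureTheory

namespace Run7.h555.P15

open Run7.h555.Tam (MinimalAt nonsing c Tm torsOrder)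
open Pool.Agent.TH841.NF.D (Sha)

/-- the numbers of the family -/
def Cn (n : ℕ) : Prop := Squarefree n ∧ (n % 60 = 23 ∨ n % 60 = 47)

/-- the minimal model of the twist by `-n` -/
abbrev CI (n : ℕ) : WeierstrassCurve ℤ := WT (-(n : ℤ))

/-- the curve over `ℚ` -/
abbrev EI (n : ℕ) : WeierstrassCurve ℚ := (CI n).map (Int.castRingHom ℚ)

/-- the curve `y² = x (x + 9 n) (x + 25 n)` -/
abbrev EJ (n : ℕ) : WeierstrassCurve ℚ := ⟨0, 34 * n, 0, 225 * (n : ℚ) ^ 2, 0⟩

/-- PER: the real period (two real components) -/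
def S_PER : Prop := ∀ (L : PeriodPair) (Op Om : ℝ), 0 < Op → 0 < Om → L.g₂ = 481 / 12 →
  L.g₃ = 4879 / 216 → (∀ w : ℂ, w ∈ L.lattice ↔ ∃ a b : ℤ, w = a * Op + b * Om * Complex.I) →
  ∀ n : ℕ, n % 4 = 3 → Run7.h555.Tam.Omega (CI n) * √n = 2 * Om

/-- TOR: the torsion subgroup is the group of the points of order two -/
def S_TOR : Prop := ∀ n : ℕ, Cn n → torsOrder (EI n) = 4

/-- ISO: points and Tate-Shafarevich group in the two models -/
def S_ISO : Prop := ∀ n : ℕ, n % 4 = 3 →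
  (Finite (EI n).toAffine.Point ↔ Finite (EJ n).toAffine.Point) ∧
  ∀ k : ℕ, ((∀ x : Sha (EI n), k • x = 0 → x = 0) ↔ (∀ x : Sha (EJ n), k • x = 0 → x = 0))

/-- TAM: the product of the Tamagawa numbers -/
def S_TAM : Prop := ∀ n : ℕ, Cn n → Tm (EI n) = 4 * 4 ^ n.primeFactors.card

/-- MIN: minimality -/
def S_MIN : Prop := ∀ n : ℕ, Cn n → ∀ v : HeightOneSpectrum (𝓞 ℚ), MinimalAt (EI n) v

end Run7.h555.P15
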