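import Pool.Agent.Run7.h555.P15.Gs

/-!
The Gross sums are divisible by three: the lattice has a rotation of order three which fixes the base
line, and its fixed vectors have a norm divisible by three.
-/

set_option autoImplicit false

namespace Run7.h555.P15

/-- a permutation of order three without fixed points on a finite set -/
theorem three_dvd_card {α : Type} [DecidableEq α] (s : Finset α) (σ : α → α) (hs : ∀ x ∈ s, σ x ∈ s)
    (h3 : ∀ x ∈ s, σ (σ (σ x)) = x) (hf : ∀ x ∈ s, σ x ≠ x) : 3 ∣ s.card := by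
  have : Fact (Nat.Prime 3) := ⟨Nat.prime_three⟩
  let f : Function.End s := fun x => ⟨σ x, hs x x.2⟩
  have h1 : f ^ 3 ^ 1 = 1 := by
    rw [pow_one]
    funext x
    show f (f (f x)) = x
    exact Subtype.ext (h3 x x.2)
  have h2 := Equiv.Perm.card_fixedPoints_modEq h1
  have h4 : IsEmpty (Function.fixedPoints f) := by
    refine ⟨fun x => ?_⟩
    have h5 : f x.1 = x.1 := x.2
    exact hf x.1.1 x.1.2 (congrArg Subtype.val h5)
  have h6 : Fintype.card (Function.fixedPoints f) = 0 := Fintype.card_eq_zero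
  rw [h6, Fintype.card_coe] at h2
  exact (Nat.modEq_zero_iff_dvd).1 h2

open Pool.Agent.N969.P15 (V3 ip vec rr rr0)

/-- the rotation of order three -/
def rot (v : V3) : V3 := ![v 0 - v 1, v 2 - v 1, -v 1]

lemma rot0 (v : V3) : rot v 0 = v 0 - v 1 := rfl
lemma rot1 (v : V3) : rot v 1 = v 2 - v 1 := rfl
lemma rot2 (v : V3) : rot v 2 = -v 1 := rfl

lemma rot_three (v : V3) : rot (rot (rot v)) = v := by
  funext i
  fin_cases i
  · show rot (rot (rot v)) 0 = v 0
    simp only [rot0, rot1, rot2]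
    ring
  · show rot (rot (rot v)) 1 = v 1
    simp only [rot0, rot1, rot2]
    ring
  · show rot (rot (rot v)) 2 = v 2
    simp only [rot0, rot1, rot2]
    ring

lemma ip_rot (v : V3) : ip (rot v) (rot v) = ip v v := by
  unfold ip
  simp only [rot0, rot1, rot2]
  ring

lemma rot_ne {n : ℕ} (hn : ¬ 3 ∣ n) {v : V3} (hv : ip v v = n) : rot v ≠ v := by
  intro h
  have h1 := congrFun h 1
  have h2 := congrFun h 2
  have h0 := congrFun h 0
  rw [rot0] at h0
  rw [rot1] at h1
  rw [rot2] at h2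
  have e1 : v 1 = 0 := by linarith
  have e2 : v 2 = 0 := by linarith
  unfold ip at hv
  rw [e1, e2] at hv
  apply hn
  have h3 : (3 : ℤ) ∣ n := ⟨v 0 * v 0, by rw [← hv]; ring⟩
  exact_mod_cast h3

/-- **the Gross sums are divisible by three** -/
theorem three_dvd_cc {n : ℕ} (hn : ¬ 3 ∣ n) : (3 : ℤ) ∣ Pool.Agent.N969.P15.cc n := by
  have h1 : 3 ∣ (vec n).card := by
    refine three_dvd_card (vec n) rot (fun v hv => ?_) (fun v _ => rot_three v) (fun v hv => ?_)
    · rw [Run7.h238.P.mem_vec] at hv ⊢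
      rw [ip_rot, hv]
    · exact rot_ne hn ((Run7.h238.P.mem_vec n v).1 hv)
  have h2 : 3 ∣ ((vec n).filter fun v => (3 : ℤ) ∣ v 1 + v 2).card := by
    refine three_dvd_card _ rot (fun v hv => ?_) (fun v _ => rot_three v) (fun v hv => ?_)
    · rw [Finset.mem_filter, Run7.h238.P.mem_vec] at hv ⊢
      refine ⟨by rw [ip_rot, hv.1], ?_⟩
      rw [rot1, rot2]
      have := hv.2
      omega
    · rw [Finset.mem_filter] at hv
      exact rot_ne hn ((Run7.h238.P.mem_vec n v).1 hv.1)
  obtain ⟨a, ha⟩ := h1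
  obtain ⟨b, hb⟩ := h2
  have hr : rr n = 3 * a := by unfold rr; rw [ha]; push_cast; ring
  have hr0 : rr0 n = 3 * b := by unfold rr0; rw [hb]; push_cast; ring
  unfold Pool.Agent.N969.P15.cc
  rw [hr, hr0]
  split_ifs
  · exact ⟨a - 4 * b, by ring⟩
  · exact ⟨a - 2 * b, by ring⟩

end Run7.h555.P15
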