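import Pool.Agent.Run7.h555.G6.U1
import Pool.Agent.Y700.VC

/-!
Local indices: good reduction, change of the equation, nonsplit multiplicative reduction.
-/

set_option autoImplicit false
set_option linter.unusedSectionVars false

namespace Run7.h555.P15

open WeierstrassCurve WithZero
open Run7.h555.Tam (exists_exp exp_sq exp_cube vint vnat vadd vsub vmul vpow vneg vaddl vsubl vmull vmulr
  vpowl)
open Run7.h555.C12 (CR Tp Cls SG mem_SG_some InG add_T)
open Run7.h555.G6 (AB near_Cls)
open Pool.Agent.Y700 (VR)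

variable {L : Type} [Field L] {W W' : WeierstrassCurve L} [DecidableEq L] (v : Valuation L ℤᵐ⁰)

/-- the points with nonsingular reduction -/
def NS (W : WeierstrassCurve L) (v : Valuation L ℤᵐ⁰) : Set W.toAffine.Point :=
  {P : W.toAffine.Point | ∀ x y h, P = Affine.Point.some x y h →
      1 < v x ∨ v (W.a₁ * y - (3 * x ^ 2 + 2 * W.a₂ * x + W.a₄)) = 1 ∨
      v (2 * y + W.a₁ * x + W.a₃) = 1}

/-- integral coefficients -/
structure Ic (W : WeierstrassCurve L) (v : Valuation L ℤᵐ⁰) : Prop where
  i1 : v W.a₁ ≤ 1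
  i2 : v W.a₂ ≤ 1
  i3 : v W.a₃ ≤ 1
  i4 : v W.a₄ ≤ 1
  i6 : v W.a₆ ≤ 1

variable {v}

/-- `y` is integral if `x` is -/
lemma Ic.y (I : Ic W v) {x y : L} (h : W.toAffine.Equation x y) (hx : v x ≤ 1) : v y ≤ 1 := by
  rw [Affine.equation_iff] at h
  by_contra hc
  push Not at hc
  have h1 : v (x ^ 3 + W.a₂ * x ^ 2 + W.a₄ * x + W.a₆) ≤ 1 :=
    vadd (vadd (vadd (vpow hx 3) (vmul I.i2 (vpow hx 2))) (vmul I.i4 hx)) I.i6
  rw [← h] at h1
  have h2 : v (W.a₁ * x * y + W.a₃ * y) ≤ v y := by
    have e : W.a₁ * x * y + W.a₃ * y = (W.a₁ * x + W.a₃) * y := by ring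
    rw [e, map_mul]
    exact mul_le_of_le_one_left' (vadd (vmul I.i1 hx) I.i3)
  have h3 : v y < v (y ^ 2) := by
    rw [map_pow, sq]
    have hy0 : 0 < v y := lt_trans zero_lt_one hc
    calc v y = 1 * v y := (one_mul _).symm
      _ < v y * v y := mul_lt_mul_of_pos_right hc hy0
  have e : y ^ 2 + W.a₁ * x * y + W.a₃ * y = y ^ 2 + (W.a₁ * x * y + W.a₃ * y) := by ring
  rw [e, v.map_add_eq_of_lt_left (lt_of_le_of_lt h2 h3)] at h1
  exact absurd h1 (not_le.2 (lt_trans hc h3))

/-- **good reduction** -/
theorem idx_disc (I : Ic W v) (hΔ : v W.Δ = 1) : (AddSubgroup.closure (NS W v)).index = 1 := by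
  rw [AddSubgroup.index_eq_one]
  have e : NS W v = Set.univ := by
    rw [Set.eq_univ_iff_forall]
    intro P x y h _
    rcases lt_or_ge 1 (v x) with hx | hx
    · exact Or.inl hx
    · right
      have hy := I.y h.1 hx
      have h3' : v (3 : L) ≤ 1 := by exact_mod_cast vnat v 3
      have h2' : v (2 : L) ≤ 1 := by exact_mod_cast vnat v 2
      have hA : v (W.a₁ * y - (3 * x ^ 2 + 2 * W.a₂ * x + W.a₄)) ≤ 1 :=
        vsub (vmul I.i1 hy) (vadd (vadd (vmul h3' (vpow hx 2)) (vmul (vmul h2' I.i2) hx)) I.i4)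
      have hB : v (2 * y + W.a₁ * x + W.a₃) ≤ 1 :=
        vadd (vadd (vmul h2' hy) (vmul I.i1 hx)) I.i3
      by_contra hc
      push Not at hc
      have cA := lt_of_le_of_ne hA hc.1
      have cB := lt_of_le_of_ne hB hc.2
      -- the equation centered at the point
      set C : VariableChange L := ⟨1, x, 0, y⟩ with hC
      have hΔ' : (C • W).Δ = W.Δ := by
        rw [variableChange_Δ]
        simp [hC]
      have e3 : (C • W).a₃ = 2 * y + W.a₁ * x + W.a₃ := by
        rw [variableChange_a₃]
        simp [hC]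
        ring
      have e4 : (C • W).a₄ = -(W.a₁ * y - (3 * x ^ 2 + 2 * W.a₂ * x + W.a₄)) := by
        rw [variableChange_a₄]
        simp [hC]
        ring
      have e6 : (C • W).a₆ = 0 := by
        rw [variableChange_a₆]
        simp only [hC, inv_one, Units.val_one, one_pow, one_mul]
        have := (Affine.equation_iff _ _).1 h.1
        linear_combination -this
      have e1 : (C • W).a₁ = W.a₁ := by
        rw [variableChange_a₁]
        simp [hC]
      have e2 : (C • W).a₂ = W.a₂ + 3 * x := by
        rw [variableChange_a₂]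
        simp [hC]
      set a := W.a₁
      set b := W.a₂ + 3 * x
      have hb : v b ≤ 1 := vadd I.i2 (vmul h3' hx)
      set B := 2 * y + W.a₁ * x + W.a₃
      set A := W.a₁ * y - (3 * x ^ 2 + 2 * W.a₂ * x + W.a₄)
      have hlt : v W.Δ < 1 := by
        rw [← hΔ']
        unfold WeierstrassCurve.Δ WeierstrassCurve.b₂ WeierstrassCurve.b₄ WeierstrassCurve.b₆
          WeierstrassCurve.b₈
        rw [e1, e2, e3, e4, e6]
        have e : -(a ^ 2 + 4 * b) ^ 2 * (a ^ 2 * 0 + 4 * b * 0 - a * B * -A + b * B ^ 2 - (-A) ^ 2) -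
            8 * (2 * -A + a * B) ^ 3 - 27 * (B ^ 2 + 4 * 0) ^ 2 +
            9 * (a ^ 2 + 4 * b) * (2 * -A + a * B) * (B ^ 2 + 4 * 0) =
            B * (-(a ^ 2 + 4 * b) ^ 2 * (a * A + b * B) - 27 * B ^ 3 +
              9 * (a ^ 2 + 4 * b) * (2 * -A + a * B) * B) +
            A * ((a ^ 2 + 4 * b) ^ 2 * A) - 8 * (2 * -A + a * B) ^ 3 := by ring
        rw [e]
        have n8 : v (8 : L) ≤ 1 := by exact_mod_cast vnat v 8
        have n27 : v (27 : L) ≤ 1 := by exact_mod_cast vnat v 27
        have n9 : v (9 : L) ≤ 1 := by exact_mod_cast vnat v 9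
        have n4 : v (4 : L) ≤ 1 := by exact_mod_cast vnat v 4
        have hb2 : v (a ^ 2 + 4 * b) ≤ 1 := vadd (vpow I.i1 2) (vmul n4 hb)
        have hc4 : v (2 * -A + a * B) < 1 := vaddl (vmull h2' (by rw [Valuation.map_neg]; exact cA))
          (vmull I.i1 cB)
        refine vsubl (vaddl (vmulr cB ?_) (vmulr cA (vmul (vpow hb2 2) hA)))
          (vmull n8 (vpowl hc4 three_ne_zero))
        refine vadd (vsub (vmul ?_ (vadd (vmul I.i1 hA) (vmul hb hB))) (vmul n27 (vpow hB 3)))
          (vmul (vmul (vmul n9 hb2) hc4.le) hB)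
        rw [Valuation.map_neg]
        exact vpow hb2 2
      rw [hΔ] at hlt
      exact lt_irrefl _ hlt
  rw [e]
  exact AddSubgroup.closure_univ

/-- **the index does not depend on the equation** -/
theorem idx_vc {u r s t : L} (h : VR W W' u r s t) (hD : W'.Δ ≠ 0) (hu : v u = 1) (hr : v r ≤ 1)
    (hs : v s ≤ 1) (I : Ic W' v) :
    (AddSubgroup.closure (NS W' v)).index = (AddSubgroup.closure (NS W v)).index := by
  have h2' : v (2 : L) ≤ 1 := by exact_mod_cast vnat v 2
  have h3' : v (3 : L) ≤ 1 := by exact_mod_cast vnat v 3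
  have key : ∀ x y : L, W'.toAffine.Equation x y →
      ((1 < v x ∨ v (W'.a₁ * y - (3 * x ^ 2 + 2 * W'.a₂ * x + W'.a₄)) = 1 ∨
      v (2 * y + W'.a₁ * x + W'.a₃) = 1) ↔
      (1 < v (u ^ 2 * x + r) ∨ v (W.a₁ * (u ^ 3 * y + u ^ 2 * s * x + t) -
        (3 * (u ^ 2 * x + r) ^ 2 + 2 * W.a₂ * (u ^ 2 * x + r) + W.a₄)) = 1 ∨
      v (2 * (u ^ 3 * y + u ^ 2 * s * x + t) + W.a₁ * (u ^ 2 * x + r) + W.a₃) = 1)) := by
    intro x y hxy
    rcases lt_or_ge 1 (v x) with hx | hx
    · have hX : 1 < v (u ^ 2 * x + r) := by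
        have h1 : v (u ^ 2 * x) = v x := by rw [map_mul, map_pow, hu, one_pow, one_mul]
        rw [v.map_add_eq_of_lt_left (by rw [h1]; exact lt_of_le_of_lt hr hx), h1]
        exact hx
      exact iff_of_true (Or.inl hx) (Or.inl hX)
    · have hy := I.y hxy hx
      have hX : ¬ 1 < v (u ^ 2 * x + r) :=
        not_lt.2 (vadd (vmul (vpow hu.le 2) hx) hr)
      set A := W'.a₁ * y - (3 * x ^ 2 + 2 * W'.a₂ * x + W'.a₄) with hAd
      set B := 2 * y + W'.a₁ * x + W'.a₃ with hBd
      have hA : v A ≤ 1 :=
        vsub (vmul I.i1 hy) (vadd (vadd (vmul h3' (vpow hx 2)) (vmul (vmul h2' I.i2) hx)) I.i4)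
      have hB : v B ≤ 1 := vadd (vadd (vmul h2' hy) (vmul I.i1 hx)) I.i3
      obtain ⟨u0, e1, e2, e3, e4, e6⟩ := h
      have eB : 2 * (u ^ 3 * y + u ^ 2 * s * x + t) + W.a₁ * (u ^ 2 * x + r) + W.a₃ = u ^ 3 * B := by
        rw [hBd]
        linear_combination (-u ^ 2 * x) * e1 - e3
      have eA : W.a₁ * (u ^ 3 * y + u ^ 2 * s * x + t) -
          (3 * (u ^ 2 * x + r) ^ 2 + 2 * W.a₂ * (u ^ 2 * x + r) + W.a₄) =
          u ^ 4 * A - s * u ^ 3 * B := by
        rw [hAd, hBd]
        linear_combination (-u ^ 3 * y + s * u ^ 2 * x) * e1 + (2 * u ^ 2 * x) * e2 + e4 + s * e3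
      rw [eA, eB]
      have vB : v (u ^ 3 * B) = v B := by rw [map_mul, map_pow, hu, one_pow, one_mul]
      rw [vB]
      constructor
      · rintro (h1 | h1 | h1)
        · exact absurd h1 (not_lt.2 hx)
        · by_cases hB1 : v B = 1
          · exact Or.inr (Or.inr hB1)
          · right; left
            have hlt : v (s * u ^ 3 * B) < v (u ^ 4 * A) := by
              have : v (u ^ 4 * A) = 1 := by rw [map_mul, map_pow, hu, one_pow, one_mul, h1]
              rw [this]
              exact vmull (vmul hs (vpow hu.le 3)) (lt_of_le_of_ne hB hB1)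
            rw [v.map_sub_eq_of_lt_left hlt, map_mul, map_pow, hu, one_pow, one_mul, h1]
        · exact Or.inr (Or.inr h1)
      · rintro (h1 | h1 | h1)
        · exact absurd h1 hX
        · by_cases hB1 : v B = 1
          · exact Or.inr (Or.inr hB1)
          · right; left
            by_contra hA1
            have hlt : v (u ^ 4 * A - s * u ^ 3 * B) < 1 :=
              vsubl (vmull (vpow hu.le 4) (lt_of_le_of_ne hA hA1))
                (vmull (vmul hs (vpow hu.le 3)) (lt_of_le_of_ne hB hB1))
            rw [h1] at hlt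
            exact lt_irrefl _ hlt
        · exact Or.inr (Or.inr h1)
  set e := h.equiv hD with he
  have himg : (e : W'.toAffine.Point → W.toAffine.Point) '' NS W' v = NS W v := by
    apply Set.ext
    intro Q
    constructor
    · rintro ⟨P, hP, rfl⟩
      intro X Y hXY hQ
      rcases P with _ | ⟨x, y, hn⟩
      · have : e (0 : W'.toAffine.Point) = 0 := map_zero e
        have h0 : (0 : W.toAffine.Point) = Affine.Point.some X Y hXY := by rw [← hQ]; exact this.symm
        exact absurd h0.symm (Affine.Point.some_ne_zero _)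
      · have h1 : e (Affine.Point.some x y hn) = Affine.Point.some (u ^ 2 * x + r)
            (u ^ 3 * y + u ^ 2 * s * x + t) _ := h.fn_some hD hn
        rw [h1, Affine.Point.some.injEq] at hQ
        rw [← hQ.1, ← hQ.2]
        exact (key x y hn.1).1 (hP x y hn rfl)
    · intro hQ
      obtain ⟨P, rfl⟩ := e.surjective Q
      refine ⟨P, ?_, rfl⟩
      intro x y hn hP
      subst hP
      exact (key x y hn.1).2 (hQ _ _ _ (h.fn_some hD hn))
  have hmap : (AddSubgroup.closure (NS W' v)).map (e : W'.toAffine.Point →+ W.toAffine.Point) =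
      AddSubgroup.closure (NS W v) := by
    rw [AddMonoidHom.map_closure, ← himg]
    rfl
  rw [← hmap]
  exact (AddSubgroup.index_map_equiv e (H := AddSubgroup.closure (NS W' v))).symm

variable {a b : L} (A : AB W a b)

include A in
/-- the reduction for a node at `(0, 0)` -/
theorem sing_node (h2 : v (2 : L) = 1) {e e' : L} (hs : e + e' = -a) (hp : e * e' = b) (he : v e = 1)
    (he' : v e' < 1) {x y : L} (h : W.toAffine.Nonsingular x y) :
    (1 < v x ∨ v (W.a₁ * y - (3 * x ^ 2 + 2 * W.a₂ * x + W.a₄)) = 1 ∨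
      v (2 * y + W.a₁ * x + W.a₃) = 1) ↔ 1 ≤ v x := by
  have h3' : v (3 : L) ≤ 1 := by exact_mod_cast vnat v 3
  have ha : a = -(e + e') := by linear_combination hs
  have e1 : W.a₁ * y - (3 * x ^ 2 + 2 * W.a₂ * x + W.a₄) =
      -(3 * x ^ 2 - 2 * (e + e') * x + e * e') := by
    rw [A.k1, A.k2, A.k4, ha, ← hp]; ring
  have e2 : 2 * y + W.a₁ * x + W.a₃ = 2 * y := by rw [A.k1, A.k3]; ring
  rw [e1, e2, Valuation.map_neg]
  have hy : y ^ 2 = x * (x - e) * (x - e') := by
    rw [A.eqn h, ha, ← hp]; ring
  constructor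
  · intro h1
    by_contra hc
    push Not at hc
    rcases h1 with h1 | h1 | h1
    · exact absurd h1 (not_lt.2 hc.le)
    · have : v (3 * x ^ 2 - 2 * (e + e') * x + e * e') < 1 :=
        vaddl (vsubl (vmull h3' (vpowl hc two_ne_zero))
          (vmull (vmul h2.le (vadd he.le he'.le)) hc)) (vmull he.le he')
      rw [h1] at this
      exact lt_irrefl _ this
    · rw [map_mul, h2, one_mul] at h1
      have h4 : v (y ^ 2) < 1 := by
        rw [hy]
        exact vmulr (vmulr hc (vsub hc.le he.le)) (vsub hc.le he'.le)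
      rw [map_pow, h1, one_pow] at h4
      exact lt_irrefl _ h4
  · intro h1
    rcases h1.lt_or_eq with h1 | h1
    · exact Or.inl h1
    · right
      have hx : v x = 1 := h1.symm
      by_cases hy1 : v y = 1
      · right
        rw [map_mul, h2, hy1, one_mul]
      · left
        have hye : v (x - e') = 1 := by
          rw [v.map_sub_eq_of_lt_left (by rw [hx]; exact he'), hx]
        have hyl : v y ≤ 1 := by
          have h5 : v (y ^ 2) ≤ 1 := by
            rw [hy]
            exact vmul (vmul hx.le (vsub hx.le he.le)) (vsub hx.le he'.le)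
          rw [map_pow] at h5
          by_contra h6
          push Not at h6
          exact absurd h5 (not_le.2 (one_lt_pow₀ h6 two_ne_zero))
        have hylt := lt_of_le_of_ne hyl hy1
        have h6 : v (x - e) < 1 := by
          have h7 : v (y ^ 2) < 1 := vpowl hylt two_ne_zero
          rw [hy, map_mul, map_mul, hx, hye, one_mul, mul_one] at h7
          exact h7
        have e3 : 3 * x ^ 2 - 2 * (e + e') * x + e * e' =
            (x - e) * (3 * x + e - 2 * e') + e * (e - e') := by ring
        have h8 : v (e * (e - e')) = 1 := by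
          rw [map_mul, he, v.map_sub_eq_of_lt_left (by rw [he]; exact he'), he, one_mul]
        rw [e3, v.map_add_eq_of_lt_right, h8]
        rw [h8]
        exact vmulr h6 (vsub (vadd (vmul h3' hx.le) he.le) (vmul h2.le he'.le))

include A in
/-- **nonsplit multiplicative reduction, type `I₄`** -/
theorem idx_I4ns (h2 : v (2 : L) = 1) {e e' : L} (hs : e + e' = -a) (hp : e * e' = b) (he : v e = 1)
    (he' : v e' = exp (-2)) (hns : ∀ s : L, ¬ v (-e - s ^ 2) < 1) :
    (AddSubgroup.closure (NS W v)).index = 2 := by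
  have le' : v e' < 1 := by rw [he', ← exp_zero, exp_lt_exp]; norm_num
  have e0 : e ≠ 0 := by
    rintro rfl
    rw [map_zero] at he
    exact zero_ne_one he
  have e'0 : e' ≠ 0 := by
    rintro rfl
    rw [map_zero] at he'
    exact exp_ne_zero he'.symm
  have hb0 : b ≠ 0 := A.ne
  have ha : a = -(e + e') := by linear_combination hs
  have hee : v (e - e') = 1 := by
    rw [v.map_sub_eq_of_lt_left (by rw [he]; exact le'), he]
  have S1 : CR W e (e * (e - e')) := by
    refine ⟨A.k1, A.k3, ?_, ?_, ?_⟩
    · rw [A.k2, A.k4, A.k6, ha, ← hp]; ring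
    · rw [A.k2, A.k4, ha, ← hp]; ring
    · refine mul_ne_zero e0 ?_
      intro h0
      rw [h0, map_zero] at hee
      exact zero_ne_one hee
  set H := SG S1 (near_Cls (v := v)) with hH
  -- the near squares
  have hnear : ∀ X Y (h : W.toAffine.Nonsingular X Y),
      (.some X Y h : W.toAffine.Point) ∈ H ↔ 1 ≤ v X := by
    intro X Y h
    have hy : Y ^ 2 = X * (X - e) * (X - e') := by
      rw [A.eqn h, ha, ← hp]; ring
    rw [hH, mem_SG_some]
    constructor
    · rintro ⟨h3, h4⟩
      by_contra hc
      push Not at hc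
      have hXe : X ≠ e := by
        rintro rfl
        rw [he] at hc
        exact lt_irrefl _ hc
      obtain ⟨-, s, hs'⟩ := h3 hXe
      have h5 : v (X - e) = 1 := by
        rw [v.map_sub_eq_of_lt_right (by rw [he]; exact hc), he]
      rw [h5] at hs'
      apply hns s
      have e5 : -e - s ^ 2 = (X - e - s ^ 2) - X := by ring
      rw [e5]
      exact vsubl hs' hc
    · intro h1
      have hX0 : X ≠ 0 := by
        rintro rfl
        simp at h1
      refine ⟨fun hXe => ⟨sub_ne_zero.2 hXe, Y / X, ?_⟩, fun hXe => ⟨S1.ne, e, ?_⟩⟩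
      · have e5 : X - e - (Y / X) ^ 2 = (X - e) * (e' / X) := by
          rw [div_pow, hy]
          field_simp
          ring
        rw [e5, map_mul, map_div₀]
        have h6 : v e' / v X < 1 := by
          rw [div_lt_one₀ (lt_of_lt_of_le zero_lt_one h1)]
          exact lt_of_lt_of_le le' h1
        calc v (X - e) * (v e' / v X) < v (X - e) * 1 :=
              mul_lt_mul_of_pos_left h6 (zero_lt_iff.2 ((v.ne_zero_iff).2 (sub_ne_zero.2 hXe)))
          _ = v (X - e) := mul_one _
      · have e5 : e * (e - e') - e ^ 2 = -(e * e') := by ring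
        rw [e5, Valuation.map_neg, map_mul, map_mul, he, hee, one_mul, one_mul]
        exact le'
  have hcl : AddSubgroup.closure (NS W v) = H := by
    have : NS W v = (H : Set W.toAffine.Point) := by
      apply Set.ext
      intro P
      constructor
      · intro hP
        rcases P with _ | ⟨x, y, h⟩
        · exact H.zero_mem
        · exact (hnear x y h).2 ((sing_node A h2 hs hp he le' h).1 (hP x y h rfl))
      · intro hP x y h e1
        rw [e1] at hP
        exact (sing_node A h2 hs hp he le' h).2 ((hnear x y h).1 hP)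
    rw [this]
    exact AddSubgroup.closure_eq _
  rw [hcl]
  -- the point `(0, 0)`
  have hT : Tp A.S0 ∉ H := by
    unfold Tp
    rw [hnear]
    rw [map_zero]
    simp
  have hall : ∀ P : W.toAffine.Point, P ∈ H ∨ P + Tp A.S0 ∈ H := by
    intro P
    rcases P with _ | ⟨X, Y, h⟩
    · exact Or.inl H.zero_mem
    · by_cases h1 : 1 ≤ v X
      · exact Or.inl ((hnear X Y h).2 h1)
      · push Not at h1
        right
        by_cases hX0 : X = 0
        · have hY0 := Run7.h555.C12.Y_zero A.S0 hX0 h
          subst hX0 hY0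
          have : (.some 0 0 h : W.toAffine.Point) + Tp A.S0 = 0 := Run7.h555.C12.T_add_T A.S0
          rw [this]
          exact H.zero_mem
        · obtain ⟨X', Y', h', hX', hadd⟩ := add_T A.S0 hX0 h
          rw [hadd, hnear]
          rw [sub_zero, sub_zero] at hX'
          rw [hX']
          obtain ⟨k, hk⟩ := exists_exp v hX0
          have hvb : v b = exp (-2) := by rw [← hp, map_mul, he, he', one_mul]
          have hy : Y ^ 2 = X * (X - e) * (X - e') := by
            rw [A.eqn h, ha, ← hp]; ring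
          have hk1 : k < 0 := by
            rw [hk, ← exp_zero, exp_lt_exp] at h1
            exact h1
          have hk2 : k ≤ -2 := by
            by_contra hc
            have hk3 : k = -1 := by omega
            rw [hk3] at hk
            -- `Y ^ 2` is near to `-e X ^ 2`
            apply hns (Y / X)
            have e5 : -e - (Y / X) ^ 2 = -(X - (X - e) * (e' / X)) := by
              rw [div_pow, hy]
              field_simp
              ring
            rw [e5, Valuation.map_neg]
            refine vsubl (by rw [hk, ← exp_zero, exp_lt_exp]; norm_num) ?_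
            refine vmull (vsub (by rw [hk, ← exp_zero, exp_le_exp]; norm_num) he.le) ?_
            rw [map_div₀, he', hk, ← exp_sub, ← exp_zero, exp_lt_exp]
            norm_num
          rw [map_div₀, hvb, hk, ← exp_sub, ← exp_zero, exp_le_exp]
          omega
  -- the index
  have hTT : Tp A.S0 + Tp A.S0 = 0 := Run7.h555.C12.T_add_T A.S0
  rw [AddSubgroup.index_eq_two_iff]
  refine ⟨Tp A.S0, fun P => ?_⟩
  rcases hall P with hP | hP
  · refine Or.inr ⟨hP, fun h => hT ?_⟩
    have := H.sub_mem h hP
    rwa [add_sub_cancel_left] at this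
  · refine Or.inl ⟨hP, fun h => hT ?_⟩
    have := H.sub_mem hP h
    rwa [add_sub_cancel_left] at this

end Run7.h555.P15
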