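import Pool.Agent.Run7.h555.P15.La

/-!
The entire function and its central value.
-/

set_option autoImplicit false
set_option linter.style.haveILetI false
set_option linter.unusedSectionVars false

open Complex Filter Topology Set UpperHalfPlane MatrixGroups CongruenceSubgroup ZMod

namespace Run7.h555.P15

open Pool.Agent.W440.TW Pool.Agent.W108.TW

variable {N : ℕ} [NeZero N] {f : CuspForm (Gamma0 N : Subgroup (GL (Fin 2) ℝ)) 2}

/-- `J` is the boundary value of the primitive at the rational numbers with denominator prime to `N` -/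
def Bd (f : CuspForm (Gamma0 N : Subgroup (GL (Fin 2) ℝ)) 2) (J : ℚ → ℂ) : Prop :=
  ∀ (q : ℕ) [NeZero q], Nat.Coprime q N → ∀ u : (ZMod q)ˣ, Tendsto (fun t : ℝ =>
    Pool.Agent.TH940.prim f (((((u : ZMod q).val : ℤ)) : ℂ) / q + (t : ℂ) * Complex.I)) (𝓝[>] 0)
    (𝓝 (J (((u : ZMod q).val : ℚ) / q)))

/-- the central value of the twist in terms of the integrals -/
theorem center14 {J : ℚ → ℂ} (hJ : Bd f J) {q : ℕ} [NeZero q] (hco : Nat.Coprime q N)
    (χ : DirichletCharacter ℂ q) (hχ : χ.IsPrimitive) (F0 W : ℂ)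
    (hF : ∀ X Y : ℝ, 0 < X → 0 < Y → X * Y = (N : ℝ) * (q : ℝ) ^ 2 / (4 * Real.pi ^ 2) →
          F0 = ∑' n : ℕ, χ⁻¹ (n : ZMod q) * (qExpansion 1 f).coeff n / n *
              (Real.exp (-(n / X)) : ℂ) +
            W * ∑' n : ℕ, (starRingEnd ℂ) (χ⁻¹ (n : ZMod q) * (qExpansion 1 f).coeff n) / n *
              (Real.exp (-(n / Y)) : ℂ)) :
    gaussSum χ (stdAddChar (N := q)) * F0 =
      ∑ u : (ZMod q)ˣ, χ (u : ZMod q) * J (((u : ZMod q).val : ℚ) / q) := by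
  classical
  have hq0 : (0 : ℝ) < q := Nat.cast_pos.2 (Nat.pos_of_ne_zero (NeZero.ne q))
  have hNpos : (0 : ℝ) < N := Nat.cast_pos.2 (Nat.pos_of_ne_zero (NeZero.ne N))
  have hpi := Real.pi_pos
  obtain ⟨C, hC0, hC⟩ := Pool.Agent.TH940.coeff_div_bd f
  set Yt : ℝ → ℝ := fun T => 1 / ((N : ℝ) * (q : ℝ) ^ 2 * T) with hYt
  have hYlim : Tendsto Yt atTop (𝓝[>] 0) := by
    refine tendsto_nhdsWithin_iff.2 ⟨?_, ?_⟩
    · have h1 : Tendsto (fun T : ℝ => ((N : ℝ) * (q : ℝ) ^ 2)⁻¹ * T⁻¹) atTop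
          (𝓝 (((N : ℝ) * (q : ℝ) ^ 2)⁻¹ * 0)) := tendsto_inv_atTop_zero.const_mul _
      rw [mul_zero] at h1
      refine h1.congr fun T => ?_
      rw [hYt]
      simp only [one_div, mul_inv]
    · filter_upwards [eventually_gt_atTop (0 : ℝ)] with T hT
      rw [hYt]
      show 0 < 1 / ((N : ℝ) * (q : ℝ) ^ 2 * T)
      positivity
  -- the left hand side
  have h1 : Tendsto (fun T : ℝ => ∑ u : (ZMod q)ˣ, χ (u : ZMod q) *
      Pool.Agent.TH940.prim f (((((u : ZMod q).val : ℤ)) : ℂ) / q + (Yt T : ℂ) * Complex.I)) atTop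
      (𝓝 (∑ u : (ZMod q)ˣ, χ (u : ZMod q) * J (((u : ZMod q).val : ℚ) / q))) :=
    tendsto_finsetSum _ fun u _ => (((hJ q hco u).comp hYlim)).const_mul _
  -- the right hand side
  set a : ℕ → ℂ := fun n =>
    (starRingEnd ℂ) (χ⁻¹ (n : ZMod q) * (qExpansion 1 f).coeff n) / n with ha
  have ha0 : a 0 = 0 := by
    simp only [ha]
    rw [_root_.W388.coeff_zero f]; simp
  have hab : ∀ n : ℕ, 1 ≤ n → ‖a n‖ ≤ C * (n : ℝ) ^ (1 : ℝ) := by
    intro n hn
    have h3 := hC n hn (χ⁻¹ (n : ZMod q)) (DirichletCharacter.norm_le_one _ _)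
    refine le_trans (le_of_eq ?_) h3
    simp only [ha]
    rw [norm_div, RCLike.norm_conj, norm_mul, norm_mul, norm_div]
    ring
  have h4 : Tendsto (fun T : ℝ => gaussSum χ (stdAddChar (N := q)) *
      (F0 - W * Th a (2 * Real.pi) T)) atTop
      (𝓝 (gaussSum χ (stdAddChar (N := q)) * (F0 - W * 0))) :=
    ((((Pool.Agent.TH940.Th_tendsto ha0 hab (by positivity)).const_mul W).const_sub F0).const_mul _)
  rw [mul_zero, sub_zero] at h4
  refine tendsto_nhds_unique h4 (h1.congr' ?_)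
  filter_upwards [eventually_gt_atTop (0 : ℝ)] with T hT
  have hy : 0 < Yt T := by rw [hYt]; positivity
  rw [Pool.Agent.TH940.prim_gauss f χ hχ hy]
  congr 1
  have h5 := hF ((N : ℝ) * (q : ℝ) ^ 2 * T / (2 * Real.pi)) (1 / (2 * Real.pi * T))
    (by positivity) (by positivity) (by field_simp; ring)
  rw [h5]
  have e1 : ∀ n : ℕ, Real.exp (-(2 * Real.pi * n * Yt T)) =
      Real.exp (-(n / ((N : ℝ) * (q : ℝ) ^ 2 * T / (2 * Real.pi)))) := by
    intro n
    congr 1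
    rw [hYt]
    field_simp
  have e2 : Th a (2 * Real.pi) T = ∑' n : ℕ, (starRingEnd ℂ) (χ⁻¹ (n : ZMod q) *
      (qExpansion 1 f).coeff n) / n * (Real.exp (-(n / (1 / (2 * Real.pi * T)))) : ℂ) := by
    unfold Th
    refine tsum_congr fun n => ?_
    congr 3
    field_simp
  rw [e2]
  simp only [e1]
  ring

/-- the twisted `L`-function -/
theorem Facts.exists_L {a : ℕ → ℤ} (H : Facts N f a) {J : ℚ → ℂ} (hJ : Bd f J) {q : ℕ} [NeZero q] (hco : Nat.Coprime q N)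
    (χ : DirichletCharacter ℂ q) (hχ : χ.IsPrimitive) :
    ∃ g : ℂ → ℂ, Differentiable ℂ g ∧
      (∀ s : ℂ, 3 / 2 < s.re → HasProd (fun p : Nat.Primes =>
        (1 - (a p : ℂ) * χ p * (p : ℂ) ^ (-s) +
          (if (p : ℕ) ∣ N then 0 else (p : ℂ)) * (χ p) ^ 2 * (p : ℂ) ^ (-2 * s))⁻¹) (g s)) ∧
      gaussSum χ⁻¹ (stdAddChar (N := q)) * g 1 =
        ∑ u : (ZMod q)ˣ, χ⁻¹ (u : ZMod q) * J (((u : ZMod q).val : ℚ) / q) := by
  classical
  obtain ⟨ε, hε, hf⟩ := H.newf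
  have hN0 : (0 : ℝ) < (N : ℝ) := Nat.cast_pos.2 (Nat.pos_of_ne_zero (NeZero.ne N))
  have hsN : 1 ≤ Real.sqrt (N : ℝ) := Real.one_le_sqrt.2 (by
    exact_mod_cast Nat.one_le_iff_ne_zero.2 (NeZero.ne N))
  obtain ⟨C, hC0, hC⟩ := Pool.Agent.TH940.coeff_bd f
  obtain ⟨K, hK, hmel⟩ := Pool.Agent.TH940.mellin2 1 C (by norm_num) (by norm_num)
  have hc0 := _root_.W388.coeff_zero f
  have h1 : 1 ≤ q := Nat.one_le_iff_ne_zero.2 (NeZero.ne q)
  have hq1 : (1 : ℝ) ≤ q := by exact_mod_cast h1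
  have hRq : 1 ≤ Real.sqrt (N : ℝ) * q := by nlinarith
  set w : ℂ := (ε : ℂ) * χ (-(N : ZMod q)) * gaussSum χ (stdAddChar (N := q)) /
    gaussSum χ⁻¹ (stdAddChar (N := q)) with hw
  have hχi := inv_primitive χ hχ
  have hg0 : gaussSum χ (stdAddChar (N := q)) ≠ 0 := gauss_ne_zero χ hχ
  have hwn : ‖w‖ = 1 := by
    have e1 : ‖gaussSum χ⁻¹ (stdAddChar (N := q))‖ = ‖gaussSum χ (stdAddChar (N := q))‖ :=
      gauss_conj χ
    have e2 : ‖χ (-(N : ZMod q))‖ = 1 := by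
      have hu : IsUnit (-(N : ZMod q)) :=
        ((ZMod.isUnit_iff_coprime N q).2 hco.symm).neg
      have := χ.unit_norm_eq_one hu.unit
      simpa using this
    have e3 : ‖(ε : ℂ)‖ = 1 := by
      rcases hε with h | h <;> simp [h]
    rw [hw, norm_div, norm_mul, norm_mul, e1, e2, e3, one_mul, one_mul]
    exact div_self (norm_ne_zero_iff.2 hg0)
  have htheta : ∀ t : ℝ, 0 < t → ∑' n : ℕ, χ (n : ZMod q) * (qExpansion 1 f).coeff n *
      (Real.exp (-(2 * Real.pi * n / (Real.sqrt (N : ℝ) * q)) / t) : ℂ) =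
      w * (t : ℂ) ^ 2 * ∑' n : ℕ, (starRingEnd ℂ) (χ (n : ZMod q) * (qExpansion 1 f).coeff n) *
        (Real.exp (-(2 * Real.pi * n / (Real.sqrt (N : ℝ) * q)) * t) : ℂ) := by
    intro t ht
    have e := Pool.Agent.W378.CY.twist_explicit N 2 f ε hf q χ hχ hco t ht
    rw [e, hw]
    norm_cast
  obtain ⟨F, hF1, hF2, hF3, hF4⟩ := hmel (fun n => χ (n : ZMod q) * (qExpansion 1 f).coeff n)
    (Real.sqrt (N : ℝ) * q) hRq (by rw [hc0, mul_zero]) (fun n hn => by
      rw [norm_mul]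
      have e1 := DirichletCharacter.norm_le_one χ (n : ZMod q)
      calc ‖χ (n : ZMod q)‖ * ‖(qExpansion 1 f).coeff n‖
          ≤ 1 * ‖(qExpansion 1 f).coeff n‖ := by gcongr
        _ = ‖(qExpansion 1 f).coeff n‖ := one_mul _
        _ ≤ _ := hC n hn) w hwn htheta
  -- the series in `Re s > 1`
  have hser : ∀ s : ℂ, 1 < s.re →
      F s = ∑' n : ℕ, (χ (n : ZMod q) * cc f n * (n : ℂ) ^ (-(1 / 2) : ℂ)) * (n : ℂ) ^ (-s) := by
    intro s hs
    refine _root_.W388.ext_series F hF1 (fun n => χ (n : ZMod q) * cc f n * (n : ℂ) ^ (-(1 / 2) : ℂ))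
      (by rw [cc_zero]; ring) (fun s hs => ?_) (1 + 2) (fun s hs => ?_) s hs
    · have h2 := H.cc_summable χ (s + 1 / 2) (by
        have : (s + 1 / 2 : ℂ).re = s.re + 1 / 2 := by simp
        rw [this]; linarith)
      refine h2.congr fun n => ?_
      rcases Nat.eq_zero_or_pos n with rfl | hn
      · rw [cc_zero]; simp
      · have hn' : (n : ℂ) ≠ 0 := by exact_mod_cast hn.ne'
        congr 1
        rw [show (-(s + 1 / 2) : ℂ) = -(1 / 2) + -s by ring, Complex.cpow_add _ _ hn']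
        ring
    · rw [hF2 s hs]
      refine tsum_congr fun n => ?_
      rcases Nat.eq_zero_or_pos n with rfl | hn
      · rw [hc0, cc_zero]; simp
      · have hn' : (n : ℂ) ≠ 0 := by exact_mod_cast hn.ne'
        rw [show (-(s + 1 / 2) : ℂ) = -(1 / 2) + -s by ring, Complex.cpow_add _ _ hn']
        unfold cc
        ring
  refine ⟨fun s => F (s - 1 / 2), hF1.comp (by fun_prop), fun s hs => ?_, ?_⟩
  · have h2 := H.cc_euler χ s hs
    have h3 : F (s - 1 / 2) = ∑' n : ℕ, cc f n * χ n * (n : ℂ) ^ (-s) := by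
      rw [hser (s - 1 / 2) (by
        have : (s - 1 / 2 : ℂ).re = s.re - 1 / 2 := by simp
        rw [this]; linarith)]
      refine tsum_congr fun n => ?_
      rcases Nat.eq_zero_or_pos n with rfl | hn
      · rw [cc_zero]; simp
      · have hn' : (n : ℂ) ≠ 0 := by exact_mod_cast hn.ne'
        rw [show (-s : ℂ) = -(1 / 2) + -(s - 1 / 2) by ring, Complex.cpow_add _ _ hn']
        ring
    show HasProd _ (F (s - 1 / 2))
    rw [h3]
    exact h2
  · have e1 : ((1 : ℂ) - 1 / 2) = 1 / 2 := by norm_num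
    show gaussSum χ⁻¹ (stdAddChar (N := q)) * F (1 - 1 / 2) = _
    rw [e1]
    refine center14 hJ hco χ⁻¹ hχi (F (1 / 2)) w ?_
    intro X Y hX hY hXY
    rw [inv_inv]
    have hR2 : X * Y = (Real.sqrt (N : ℝ) * q) ^ 2 / (4 * Real.pi ^ 2) := by
      rw [hXY, mul_pow, Real.sq_sqrt hN0.le]
    exact hF3 X Y hX hY hR2

end Run7.h555.P15
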