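import Pool.Agent.Run7.h555.P15.M6
import Pool.Agent.H304R2.EC.Gauss2
import Pool.Agent.Run7.h741.MF.Bd15
import Pool.Agent.Run7.h209.P15.Lat
import Pool.Agent.Run7.h209.P15.Tors
import Pool.Agent.Run7.h135.P15.Diag
import Pool.Agent.Run7.h135.P15.R
import Pool.Agent.Run7.h483.P15.Par2

/-!
The `L`-functions of the twists by `-n` of `X_0(15)` and their central values.
-/

set_option autoImplicit false
set_option linter.style.haveILetI false
set_option linter.unusedSectionVars false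

open Complex Filter Topology Set UpperHalfPlane MatrixGroups CongruenceSubgroup ZMod

namespace Run7.h555.P15

open Pool.Agent.W97.MT (affCount ap qq)
open Pool.Agent.Run7.h741.MF (E15 ff form15 II kappa ff_q)
open Pool.Agent.Y682.XF (kr)

/-- the bad primes -/
theorem ap_three : ap E15 3 = -1 := by
  unfold ap
  rw [(Run7.h209.P15.m_min).2.1]
  norm_num

theorem ap_five : ap E15 5 = 1 := by
  unfold ap
  rw [(Run7.h209.P15.m_min).2.2.1]
  norm_num

theorem ap_bad {l : ℕ} (hl : l.Prime) (h : l ∣ 15) : |(ap E15 l : ℝ)| ≤ 1 := by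
  have h2 : l ∣ 3 * 5 := h
  rcases hl.dvd_mul.1 h2 with h3 | h3
  · rw [(Nat.prime_dvd_prime_iff_eq hl Nat.prime_three).1 h3, ap_three]
    norm_num
  · rw [(Nat.prime_dvd_prime_iff_eq hl Nat.prime_five).1 h3, ap_five]
    norm_num

theorem facts : Facts 15 form15 (ap E15) :=
  Pool.Agent.Run7.h741.MF.facts15 Run7.h209.P15.m_tors Run7.h209.P15.m_lat
    (fun _ hl h => ap_good hl h) (fun _ hl h => ap_bad hl h)

lemma ff_add_one (z : ℂ) : ff (z + 1) = ff z := by
  have h : qq (z + 1) = qq z := by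
    unfold qq
    rw [mul_add, Complex.exp_add, mul_one, Complex.exp_two_pi_mul_I, mul_one]
  rw [ff_q, ff_q, h]

lemma II_add_one (r : ℚ) : II (r + 1) = II r := by
  unfold II
  congr 1
  refine MeasureTheory.setIntegral_congr_fun measurableSet_Ioi fun t _ => ?_
  show ff (((r + 1 : ℚ) : ℂ) + t * Complex.I) = ff ((r : ℂ) + t * Complex.I)
  rw [← ff_add_one ((r : ℂ) + t * Complex.I)]
  congr 1
  push_cast
  ring

section sum

variable {n : ℕ} [NeZero n]

lemma val_neg' (h1 : 1 < n) (u : (ZMod n)ˣ) :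
    II ((((-u : (ZMod n)ˣ) : ZMod n).val : ℚ) / n) = II (-(((u : ZMod n).val : ℚ) / n)) := by
  have hn0 : (n : ℚ) ≠ 0 := by exact_mod_cast NeZero.ne n
  have hu : (u : ZMod n) ≠ 0 := by
    have : Fact (1 < n) := ⟨h1⟩
    exact u.ne_zero
  have e : (((-u : (ZMod n)ˣ) : ZMod n)).val = n - (u : ZMod n).val := by
    rw [Units.val_neg, ZMod.neg_val, if_neg hu]
  have hle : (u : ZMod n).val ≤ n := (ZMod.val_lt _).le
  rw [e, Nat.cast_sub hle, sub_div, div_self hn0]
  rw [← II_add_one (-(((u : ZMod n).val : ℚ) / n))]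
  congr 1
  ring

/-- the sum of the periods for an odd real character -/
theorem sum_odd (h1 : 1 < n) (δ : DirichletCharacter ℂ n) (hodd : δ (-1) = -1)
    (j : ZMod n → ℤ) (hδ : ∀ u : (ZMod n)ˣ, δ (u : ZMod n) = (j u : ℂ)) :
    ∑ u : (ZMod n)ˣ, δ (u : ZMod n) * II (((u : ZMod n).val : ℚ) / n) =
      Complex.I * ((∑ u : (ZMod n)ˣ, (j u : ℝ) * (II (((u : ZMod n).val : ℚ) / n)).im : ℝ) : ℂ) := by
  set S := ∑ u : (ZMod n)ˣ, δ (u : ZMod n) * II (((u : ZMod n).val : ℚ) / n) with hS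
  have hc : (starRingEnd ℂ) S = -S := by
    rw [hS, map_sum, ← Finset.sum_neg_distrib, ← Equiv.sum_comp (Equiv.neg (ZMod n)ˣ)]
    refine Finset.sum_congr rfl fun u _ => ?_
    rw [Equiv.neg_apply, map_mul, val_neg' h1, Pool.Agent.Run7.h741.MF.II_conj, Complex.conj_conj]
    have e1 : (starRingEnd ℂ) (δ (((-u : (ZMod n)ˣ)) : ZMod n)) = -δ (u : ZMod n) := by
      rw [hδ, map_intCast, ← hδ, Units.val_neg, ← neg_one_mul, map_mul, hodd, neg_one_mul]
    rw [e1, neg_mul]
  have hre : S.re = 0 := by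
    have := congrArg Complex.re hc
    rw [Complex.conj_re, Complex.neg_re] at this
    linarith
  have him : S.im = ∑ u : (ZMod n)ˣ, (j u : ℝ) * (II (((u : ZMod n).val : ℚ) / n)).im := by
    rw [hS, Complex.im_sum]
    refine Finset.sum_congr rfl fun u _ => ?_
    rw [hδ]
    have e : ((j u : ℤ) : ℂ) = (((j u : ℤ) : ℝ) : ℂ) := by push_cast; rfl
    rw [e, Complex.im_ofReal_mul]
  apply Complex.ext
  · rw [hre]; simp
  · rw [him]; simp

/-- sums over the units -/
lemma sum_un (f : ℕ → ℝ) (h1 : 1 < n) :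
    ∑ u : (ZMod n)ˣ, f (u : ZMod n).val = ∑ u ∈ Pool.Agent.N969.P15.un n, f u := by
  have : Fact (1 < n) := ⟨h1⟩
  refine Finset.sum_bij (fun u _ => (u : ZMod n).val) ?_ ?_ ?_ ?_
  · intro u _
    rw [Pool.Agent.N969.P15.un, Finset.mem_filter, Finset.mem_range]
    exact ⟨ZMod.val_lt _, ZMod.val_coe_unit_coprime u⟩
  · intro u _ v _ h
    exact Units.ext (ZMod.val_injective n h)
  · intro b hb
    rw [Pool.Agent.N969.P15.un, Finset.mem_filter, Finset.mem_range] at hb
    refine ⟨ZMod.unitOfCoprime b hb.2, Finset.mem_univ _, ?_⟩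
    rw [ZMod.coe_unitOfCoprime, ZMod.val_natCast, Nat.mod_eq_of_lt hb.1]
  · intro u _
    rfl

/-- the Gauss sum of an odd real primitive character -/
theorem gauss_odd (δ : DirichletCharacter ℂ n) (hp : δ.IsPrimitive) (hodd : δ (-1) = -1)
    (hr : ∀ x : ZMod n, (starRingEnd ℂ) (δ x) = δ x) :
    ∃ e : ℝ, (e = 1 ∨ e = -1) ∧
      gaussSum δ (stdAddChar (N := n)) = Complex.I * ((e * √n : ℝ) : ℂ) := by
  set g := gaussSum δ (stdAddChar (N := n)) with hg
  have hn := Pool.Agent.H304R2.EC.G1Aux.norm_sq_gaussSum hp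
  have hc : (starRingEnd ℂ) g = -g := by
    rw [hg, gaussSum, map_sum, ← Finset.sum_neg_distrib, ← Equiv.sum_comp (Equiv.neg (ZMod n))]
    refine Finset.sum_congr rfl fun x _ => ?_
    rw [Equiv.neg_apply, map_mul, hr, ← neg_one_mul x, map_mul, hodd, neg_one_mul x,
      neg_one_mul (δ x), neg_mul]
    rw [← AddChar.map_neg_eq_conj, neg_neg]
  have hre : g.re = 0 := by
    have := congrArg Complex.re hc
    rw [Complex.conj_re, Complex.neg_re] at this
    linarith
  have him : g.im ^ 2 = n := by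
    have h2 : ‖g‖ ^ 2 = n := hn
    rw [← Complex.normSq_eq_norm_sq, Complex.normSq_apply, hre] at h2
    linarith
  have h3 : (√(n : ℝ)) ^ 2 = n := Real.sq_sqrt (Nat.cast_nonneg n)
  have h4 : g.im = √n ∨ g.im = -√n := sq_eq_sq_iff_eq_or_eq_neg.1 (by rw [him, h3])
  rcases h4 with h4 | h4
  · refine ⟨1, Or.inl rfl, ?_⟩
    apply Complex.ext
    · rw [hre]; simp
    · rw [h4]; simp
  · refine ⟨-1, Or.inr rfl, ?_⟩
    apply Complex.ext
    · rw [hre]; simp
    · rw [h4]; simp

end sum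

/-- the Euler factor of the twist by `-n` -/
noncomputable def eul (n : ℕ) (s : ℂ) (p : ℕ) : ℂ :=
  (1 - (ap (CI n) p : ℂ) * (p : ℂ) ^ (-s) + if p ∣ 15 * n then 0 else (p : ℂ) ^ (1 - 2 * s))⁻¹

/-- **the `L`-function of the twist by `-n` and its central value** -/
theorem exists_Ltw {n : ℕ} (hn : Squarefree n) (h4 : n % 4 = 3) (hco : n.Coprime 15) :
    ∃ F : ℂ → ℂ, Differentiable ℂ F ∧
      (∀ s : ℂ, 3 / 2 < s.re →
        HasProd (fun p : ℕ => if p.Prime then eul n s p else 1) (F s)) ∧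
      ∃ e : ℝ, (e = 1 ∨ e = -1) ∧ F 1 * ((√n : ℝ) : ℂ) =
        ((e * (kappa * ((∑ u ∈ Pool.Agent.N969.P15.un n, jacobiSym u n *
          Pool.Agent.N969.P15.Fp u n : ℤ) : ℝ)) : ℝ) : ℂ) := by
  have : NeZero n := ⟨hn.ne_zero⟩
  have h1 : 1 < n := by omega
  have hD4 : (-(n : ℤ)) % 4 = 1 := by omega
  have hDs : Squarefree (-(n : ℤ)) := by
    rw [← Int.squarefree_natAbs]
    simpa using hn
  obtain ⟨δ, hprim, hδp, hδ1, hδu⟩ := Pool.Agent.Y812.XF.t_KD (-(n : ℤ)) hDs hD4 n (by simp)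
  have hodd : δ (-1) = -1 := by
    rw [hδ1, if_neg (by omega)]
  have hu : ∀ u : (ZMod n)ˣ, δ (u : ZMod n) = 1 ∨ δ (u : ZMod n) = -1 := by
    intro u
    rw [hδu u]
    have hc : IsCoprime ((((u : ZMod n).val : ℕ)) : ℤ) (n : ℤ) :=
      Nat.isCoprime_iff_coprime.2 (ZMod.val_coe_unit_coprime u)
    have h2 := jacobiSym.eq_one_or_neg_one (Int.isCoprime_iff_gcd_eq_one.1 hc)
    rcases h2 with h2 | h2
    · left; rw [h2]; norm_num
    · right; rw [h2]; norm_num
  have hquad : δ.IsQuadratic := by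
    intro x
    by_cases hx : IsUnit x
    · obtain ⟨u, rfl⟩ := hx
      exact Or.inr (hu u)
    · exact Or.inl (MulChar.map_nonunit δ hx)
  have hinv : δ⁻¹ = δ := hquad.inv
  have hreal : ∀ x : ZMod n, (starRingEnd ℂ) (δ x) = δ x := by
    intro x
    rcases hquad x with h | h | h <;> rw [h] <;> simp
  obtain ⟨g, hg, hprod, hval⟩ := facts.exists_L Pool.Agent.Run7.h741.MF.bd15 hco δ hprim
  rw [hinv] at hval
  obtain ⟨e, he, hgs⟩ := gauss_odd δ hprim hodd hreal
  have hsum := sum_odd h1 δ hodd (fun x => jacobiSym (x.val : ℤ) n) hδu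
  refine ⟨g, hg, ?_, e, he, ?_⟩
  · intro s hs
    have h2 := hprod s hs
    have hinj : Function.Injective (fun p : Nat.Primes => (p : ℕ)) := fun a b h => Subtype.ext h
    rw [← Function.Injective.hasProd_iff hinj]
    · have e1 : ((fun p : ℕ => if p.Prime then eul n s p else 1) ∘ fun p : Nat.Primes => (p : ℕ)) =
          fun p : Nat.Primes => (1 - (ap E15 p : ℂ) * δ p * (p : ℂ) ^ (-s) +
            (if (p : ℕ) ∣ 15 then 0 else (p : ℂ)) * (δ p) ^ 2 * (p : ℂ) ^ (-2 * s))⁻¹ := by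
        funext p
        have hp := p.2
        have hp0 : ((p : ℕ) : ℂ) ≠ 0 := by exact_mod_cast hp.ne_zero
        show (if (p : ℕ).Prime then eul n s p else 1) = _
        rw [if_pos hp]
        unfold eul
        have e2 : ((ap (CI n) p : ℤ) : ℂ) = (ap E15 p : ℂ) * δ p := by
          rw [ap_twist hD4 hp, hδp p hp]
          push_cast
          ring
        have e3 : (if (p : ℕ) ∣ 15 * n then (0 : ℂ) else (p : ℂ) ^ (1 - 2 * s)) =
            (if (p : ℕ) ∣ 15 then 0 else (p : ℂ)) * (δ p) ^ 2 * (p : ℂ) ^ (-2 * s) := by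
          have e4 : (p : ℂ) ^ (1 - 2 * s) = (p : ℂ) * (p : ℂ) ^ (-2 * s) := by
            rw [sub_eq_add_neg, Complex.cpow_add _ _ hp0, Complex.cpow_one, neg_mul]
          by_cases h15 : (p : ℕ) ∣ 15
          · rw [if_pos (Dvd.dvd.mul_right h15 n), if_pos h15, zero_mul, zero_mul]
          · by_cases hpn : (p : ℕ) ∣ n
            · rw [if_pos (Dvd.dvd.mul_left hpn 15)]
              have h0 : δ (p : ℕ) = 0 := by
                apply MulChar.map_nonunit
                rw [ZMod.isUnit_iff_coprime]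
                intro hc
                exact (hp.coprime_iff_not_dvd.1 hc) hpn
              rw [h0]
              ring
            · have h15n : ¬ (p : ℕ) ∣ 15 * n := fun h => by
                rcases hp.dvd_mul.1 h with h | h
                · exact h15 h
                · exact hpn h
              rw [if_neg h15n, if_neg h15, e4]
              have h2 : (δ (p : ℕ)) ^ 2 = 1 := by
                have hc : (p : ℕ).Coprime n := hp.coprime_iff_not_dvd.2 hpn
                have h3 := hu (ZMod.unitOfCoprime p hc)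
                rw [ZMod.coe_unitOfCoprime] at h3
                rcases h3 with h3 | h3
                · rw [h3]; norm_num
                · rw [h3]; norm_num
              rw [h2]
              ring
        rw [e2, e3]
      rw [e1]
      exact h2
    · intro p hp
      rw [if_neg]
      intro h
      exact hp ⟨⟨p, h⟩, rfl⟩
  · have h2 : ((∑ u : (ZMod n)ˣ, ((jacobiSym ((u : ZMod n).val : ℤ) n : ℤ) : ℝ) *
        (II (((u : ZMod n).val : ℚ) / n)).im : ℝ)) =
        kappa * ((∑ u ∈ Pool.Agent.N969.P15.un n, jacobiSym u n *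
          Pool.Agent.N969.P15.Fp u n : ℤ) : ℝ) := by
      have h3 := sum_un (n := n)
        (fun u => ((jacobiSym (u : ℤ) n : ℤ) : ℝ) * (II ((u : ℚ) / n)).im) h1
      beta_reduce at h3
      rw [h3]
      push_cast
      rw [Finset.mul_sum]
      refine Finset.sum_congr rfl fun u hu' => ?_
      rw [Pool.Agent.N969.P15.un, Finset.mem_filter] at hu'
      have hn0 : (0 : ℤ) < n := by omega
      have h4 := Pool.Agent.Run7.h741.MF.II_im (u := (u : ℤ)) (n := (n : ℤ)) hn0
        (Nat.isCoprime_iff_coprime.2 hu'.2)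
        (by have := Nat.isCoprime_iff_coprime.2 hco; exact_mod_cast this)
      push_cast at h4
      rw [h4]
      ring
    rw [hgs, hsum, h2] at hval
    have h5 := mul_left_cancel₀ Complex.I_ne_zero ((mul_assoc _ _ _).symm.trans hval)
    have he2 : e * e = 1 := by
      rcases he with rfl | rfl <;> norm_num
    have h6 : g 1 * ((√n : ℝ) : ℂ) = (e : ℂ) * (((e * √n : ℝ) : ℂ) * g 1) := by
      have he3 : (e : ℂ) * (e : ℂ) = 1 := by exact_mod_cast he2
      push_cast
      linear_combination (-(g 1) * ((√n : ℝ) : ℂ)) * he3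
    rw [h6, h5]
    push_cast
    ring

open Pool.Agent.N969.P15 (Cls0 Qc)

/-- **the central values of the twists of `X_0(15)`** -/
theorem center {L : PeriodPair} {Op Om : ℝ} (hOm : 0 < Om) (g2 : L.g₂ = 481 / 12)
    (g3 : L.g₃ = 4879 / 216)
    (hL : ∀ w : ℂ, w ∈ L.lattice ↔ ∃ a b : ℤ, w = a * Op + b * Om * Complex.I)
    {n : ℕ} (hn : Cls0 n) :
    ∃ F : ℂ → ℂ, Differentiable ℂ F ∧
      (∀ s : ℂ, 3 / 2 < s.re →
        HasProd (fun p : ℕ => if p.Prime then eul n s p else 1) (F s)) ∧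
      ∃ e : ℝ, (e = 1 ∨ e = -1) ∧ ∃ y : ℤ, Pool.Agent.N969.P15.cc n = 2 ^ n.primeFactors.card * y ∧ (Odd y ↔ Qc n) ∧
        18 * F 1 * ((√n : ℝ) : ℂ) = ((e * Om * (2 ^ n.primeFactors.card * y) ^ 2 : ℝ) : ℂ) := by
  have hco : n.Coprime 15 := by
    have h3 : Nat.Coprime n 3 := by
      rw [Nat.coprime_comm, Nat.Prime.coprime_iff_not_dvd Nat.prime_three]
      have := hn.2
      omega
    have h5 : Nat.Coprime n 5 := by
      rw [Nat.coprime_comm, Nat.Prime.coprime_iff_not_dvd Nat.prime_five]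
      have := hn.2
      omega
    exact Nat.Coprime.mul_right h3 h5
  have h4 : n % 4 = 3 := by
    have := hn.2
    omega
  obtain ⟨F, hF, hprod, e, he, hval⟩ := exists_Ltw hn.1 h4 hco
  obtain ⟨y, hy, hodd⟩ := Pool.Agent.Run7.h483.P15.t_PAR Run7.h238.P.pc Run7.h238.P.t_CP3
    Pool.Agent.Run7.h135.P15.r n hn
  have hd := Pool.Agent.Run7.h135.P15.t_DIAG n hn
  have hk : ∃ e' : ℝ, (e' = 1 ∨ e' = -1) ∧ kappa = e' * Om := by
    rcases Pool.Agent.Run7.h741.MF.kappa_eq g2 g3 hOm hL with h | h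
    · exact ⟨1, Or.inl rfl, by rw [h, one_mul]⟩
    · exact ⟨-1, Or.inr rfl, by rw [h, neg_one_mul]⟩
  obtain ⟨e', he', hk⟩ := hk
  refine ⟨F, hF, hprod, e * e', ?_, y, hy, hodd, ?_⟩
  · rcases he with rfl | rfl <;> rcases he' with rfl | rfl <;> norm_num
  · have h1 : (18 : ℝ) * ((∑ u ∈ Pool.Agent.N969.P15.un n, jacobiSym u n *
        Pool.Agent.N969.P15.Fp u n : ℤ) : ℝ) = (2 ^ n.primeFactors.card * y) ^ 2 := by
      have h2 := congrArg (fun x : ℤ => (x : ℝ)) hd
      push_cast at h2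
      push_cast
      rw [h2, hy]
      push_cast
      ring
    have h3 : 18 * F 1 * ((√n : ℝ) : ℂ) = 18 * (F 1 * ((√n : ℝ) : ℂ)) := by ring
    rw [h3, hval, hk, ← h1]
    push_cast
    ring

end Run7.h555.P15
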