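import Pool.Agent.H268R2.RZ_HT
import Pool.Agent.Run7.h741.MF.Sign
import Pool.Agent.Run7.h555.P15.Ltw

/-!
The sign of the Gauss sums, and the exact central values of the twists of `X_0(15)`.
-/

set_option autoImplicit false
set_option linter.unusedSectionVars false

open ZMod

namespace Run7.h555.P15

open Pool.Agent.H306R2.RZ (js cas Gk)

/-- **the Gauss sum of the odd Jacobi character** -/
theorem gauss_jac {n : ℕ} [NeZero n] (hn : Squarefree n) (hodd' : Odd n) (δ : DirichletCharacter ℂ n)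
    (hp : δ.IsPrimitive) (hodd : δ (-1) = -1)
    (hr : ∀ x : ZMod n, (starRingEnd ℂ) (δ x) = δ x)
    (hδ : ∀ x : ZMod n, δ x = ((jacobiSym (x.val : ℤ) n : ℤ) : ℂ)) :
    gaussSum δ (stdAddChar (N := n)) = Complex.I * ((√n : ℝ) : ℂ) := by
  obtain ⟨e, he, hg⟩ := gauss_odd δ hp hodd hr
  have h1 : (gaussSum δ (stdAddChar (N := n))).re + (gaussSum δ (stdAddChar (N := n))).im = Gk 1 n := by
    unfold gaussSum Gk
    rw [Complex.re_sum, Complex.im_sum, ← Finset.sum_add_distrib]
    apply Finset.sum_nbij' (fun x : ZMod n => x.val) (fun i : ℕ => (i : ZMod n))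
    · intro x _
      exact Finset.mem_range.2 (ZMod.val_lt x)
    · intro i _
      exact Finset.mem_univ _
    · intro x _
      exact ZMod.natCast_zmod_val x
    · intro i hi
      exact ZMod.val_natCast_of_lt (Finset.mem_range.1 hi)
    · intro x _
      have e1 : δ x = ((js (x.val : ℤ) n : ℝ) : ℂ) := by
        rw [hδ]
        unfold js
        push_cast
        rfl
      have e2 : stdAddChar x = Complex.exp (((2 * Real.pi * ((1 : ℤ) : ℝ) * (x.val : ℝ) / (n : ℝ) : ℝ) : ℂ) * Complex.I) := by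
        conv_lhs => rw [← ZMod.natCast_zmod_val x]
        have := ZMod.stdAddChar_coe (N := n) (x.val : ℤ)
        rw [Int.cast_natCast] at this
        rw [this]
        congr 1
        push_cast
        ring
      rw [e1, e2, Complex.re_ofReal_mul, Complex.exp_ofReal_mul_I_re, Complex.im_ofReal_mul,
        Complex.exp_ofReal_mul_I_im]
      unfold cas
      ring
  have h2 := Pool.Agent.H268R2.RZHT.Gk_all 1 n hodd' hn
  have h3 : js 1 n = 1 := by
    unfold js
    rw [jacobiSym.one_left]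
    norm_num
  rw [h3, one_mul] at h2
  rw [h2, hg] at h1
  have hs : 0 < √(n : ℝ) := Real.sqrt_pos.2 (by exact_mod_cast Nat.pos_of_ne_zero hn.ne_zero)
  have h4 : e * √n = √n := by
    have e1 : (Complex.I * ((e * √n : ℝ) : ℂ)).re = 0 := by simp
    have e2 : (Complex.I * ((e * √n : ℝ) : ℂ)).im = e * √n := by simp
    rw [e1, e2, zero_add] at h1
    exact h1
  rw [hg, h4]

open Pool.Agent.W97.MT (affCount ap qq)
open Pool.Agent.Run7.h741.MF (E15 ff form15 II kappa ff_q)
open Pool.Agent.Y682.XF (kr)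

/-- **the `L`-function of the twist by `-n` and its central value** -/
theorem exists_Lex {n : ℕ} (hn : Squarefree n) (h4 : n % 4 = 3) (hco : n.Coprime 15) :
    ∃ F : ℂ → ℂ, Differentiable ℂ F ∧
      (∀ s : ℂ, 3 / 2 < s.re →
        HasProd (fun p : ℕ => if p.Prime then eul n s p else 1) (F s)) ∧
      F 1 * ((√n : ℝ) : ℂ) = ((kappa * ((∑ u ∈ Pool.Agent.N969.P15.un n, jacobiSym u n *
          Pool.Agent.N969.P15.Fp u n : ℤ) : ℝ) : ℝ) : ℂ) := by
  have : NeZero n := ⟨hn.ne_zero⟩
  have h1 : 1 < n := by omega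
  have hD4 : (-(n : ℤ)) % 4 = 1 := by omega
  have hDs : Squarefree (-(n : ℤ)) := by
    rw [← Int.squarefree_natAbs]
    simpa using hn
  obtain ⟨δ, hprim, hδp, hδ1, hδu⟩ := Pool.Agent.Y812.XF.t_KD (-(n : ℤ)) hDs hD4 n (by simp)
  have hodd : δ (-1) = -1 := by
    rw [hδ1, if_neg (by omega)]
  have hu : ∀ u : (ZMod n)ˣ, δ (u : ZMod n) = 1 ∨ δ (u : ZMod n) = -1 := by
    intro u
    rw [hδu u]
    have hc : IsCoprime ((((u : ZMod n).val : ℕ)) : ℤ) (n : ℤ) :=
      Nat.isCoprime_iff_coprime.2 (ZMod.val_coe_unit_coprime u)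
    have h2 := jacobiSym.eq_one_or_neg_one (Int.isCoprime_iff_gcd_eq_one.1 hc)
    rcases h2 with h2 | h2
    · left; rw [h2]; norm_num
    · right; rw [h2]; norm_num
  have hquad : δ.IsQuadratic := by
    intro x
    by_cases hx : IsUnit x
    · obtain ⟨u, rfl⟩ := hx
      exact Or.inr (hu u)
    · exact Or.inl (MulChar.map_nonunit δ hx)
  have hinv : δ⁻¹ = δ := hquad.inv
  have hreal : ∀ x : ZMod n, (starRingEnd ℂ) (δ x) = δ x := by
    intro x
    rcases hquad x with h | h | h <;> rw [h] <;> simp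
  obtain ⟨g, hg, hprod, hval⟩ := facts.exists_L Pool.Agent.Run7.h741.MF.bd15 hco δ hprim
  rw [hinv] at hval
  have hall : ∀ x : ZMod n, δ x = ((jacobiSym (x.val : ℤ) n : ℤ) : ℂ) := by
    intro x
    by_cases hx : IsUnit x
    · obtain ⟨u, rfl⟩ := hx
      exact hδu u
    · rw [MulChar.map_nonunit δ hx]
      have h0 : jacobiSym (x.val : ℤ) n = 0 := by
        rw [jacobiSym.eq_zero_iff_not_coprime]
        intro hc
        apply hx
        have hc' : Nat.Coprime x.val n := by
          have h7 : Int.gcd ((x.val : ℕ) : ℤ) (n : ℤ) = Nat.gcd x.val n := Int.gcd_natCast_natCast _ _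
          rw [h7] at hc
          exact hc
        have h3 := (ZMod.isUnit_iff_coprime x.val n).2 hc'
        rwa [ZMod.natCast_zmod_val] at h3
      rw [h0]
      norm_num
  have hgs := gauss_jac hn (Nat.odd_iff.2 (by omega)) δ hprim hodd hreal hall
  have hsum := sum_odd h1 δ hodd (fun x => jacobiSym (x.val : ℤ) n) hδu
  refine ⟨g, hg, ?_, ?_⟩
  · intro s hs
    have h2 := hprod s hs
    have hinj : Function.Injective (fun p : Nat.Primes => (p : ℕ)) := fun a b h => Subtype.ext h
    rw [← Function.Injective.hasProd_iff hinj]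
    · have e1 : ((fun p : ℕ => if p.Prime then eul n s p else 1) ∘ fun p : Nat.Primes => (p : ℕ)) =
          fun p : Nat.Primes => (1 - (ap E15 p : ℂ) * δ p * (p : ℂ) ^ (-s) +
            (if (p : ℕ) ∣ 15 then 0 else (p : ℂ)) * (δ p) ^ 2 * (p : ℂ) ^ (-2 * s))⁻¹ := by
        funext p
        have hp := p.2
        have hp0 : ((p : ℕ) : ℂ) ≠ 0 := by exact_mod_cast hp.ne_zero
        show (if (p : ℕ).Prime then eul n s p else 1) = _
        rw [if_pos hp]
        unfold eul
        have e2 : ((ap (CI n) p : ℤ) : ℂ) = (ap E15 p : ℂ) * δ p := by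
          rw [ap_twist hD4 hp, hδp p hp]
          push_cast
          ring
        have e3 : (if (p : ℕ) ∣ 15 * n then (0 : ℂ) else (p : ℂ) ^ (1 - 2 * s)) =
            (if (p : ℕ) ∣ 15 then 0 else (p : ℂ)) * (δ p) ^ 2 * (p : ℂ) ^ (-2 * s) := by
          have e4 : (p : ℂ) ^ (1 - 2 * s) = (p : ℂ) * (p : ℂ) ^ (-2 * s) := by
            rw [sub_eq_add_neg, Complex.cpow_add _ _ hp0, Complex.cpow_one, neg_mul]
          by_cases h15 : (p : ℕ) ∣ 15
          · rw [if_pos (Dvd.dvd.mul_right h15 n), if_pos h15, zero_mul, zero_mul]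
          · by_cases hpn : (p : ℕ) ∣ n
            · rw [if_pos (Dvd.dvd.mul_left hpn 15)]
              have h0 : δ (p : ℕ) = 0 := by
                apply MulChar.map_nonunit
                rw [ZMod.isUnit_iff_coprime]
                intro hc
                exact (hp.coprime_iff_not_dvd.1 hc) hpn
              rw [h0]
              ring
            · have h15n : ¬ (p : ℕ) ∣ 15 * n := fun h => by
                rcases hp.dvd_mul.1 h with h | h
                · exact h15 h
                · exact hpn h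
              rw [if_neg h15n, if_neg h15, e4]
              have h2 : (δ (p : ℕ)) ^ 2 = 1 := by
                have hc : (p : ℕ).Coprime n := hp.coprime_iff_not_dvd.2 hpn
                have h3 := hu (ZMod.unitOfCoprime p hc)
                rw [ZMod.coe_unitOfCoprime] at h3
                rcases h3 with h3 | h3
                · rw [h3]; norm_num
                · rw [h3]; norm_num
              rw [h2]
              ring
        rw [e2, e3]
      rw [e1]
      exact h2
    · intro p hp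
      rw [if_neg]
      intro h
      exact hp ⟨⟨p, h⟩, rfl⟩
  · have h2 : ((∑ u : (ZMod n)ˣ, ((jacobiSym ((u : ZMod n).val : ℤ) n : ℤ) : ℝ) *
        (II (((u : ZMod n).val : ℚ) / n)).im : ℝ)) =
        kappa * ((∑ u ∈ Pool.Agent.N969.P15.un n, jacobiSym u n *
          Pool.Agent.N969.P15.Fp u n : ℤ) : ℝ) := by
      have h3 := sum_un (n := n)
        (fun u => ((jacobiSym (u : ℤ) n : ℤ) : ℝ) * (II ((u : ℚ) / n)).im) h1
      beta_reduce at h3
      rw [h3]
      push_cast
      rw [Finset.mul_sum]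
      refine Finset.sum_congr rfl fun u hu' => ?_
      rw [Pool.Agent.N969.P15.un, Finset.mem_filter] at hu'
      have hn0 : (0 : ℤ) < n := by omega
      have h4 := Pool.Agent.Run7.h741.MF.II_im (u := (u : ℤ)) (n := (n : ℤ)) hn0
        (Nat.isCoprime_iff_coprime.2 hu'.2)
        (by have := Nat.isCoprime_iff_coprime.2 hco; exact_mod_cast this)
      push_cast at h4
      rw [h4]
      ring
    rw [hgs, hsum, h2] at hval
    have h5 := mul_left_cancel₀ Complex.I_ne_zero ((mul_assoc _ _ _).symm.trans hval)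
    rw [mul_comm, h5]

open Pool.Agent.N969.P15 (Cls0 Qc)

/-- **the exact central values of the twists of `X_0(15)`** -/
theorem center_ex {L : PeriodPair} {Op Om : ℝ} (hOm : 0 < Om) (g2 : L.g₂ = 481 / 12)
    (g3 : L.g₃ = 4879 / 216)
    (hL : ∀ w : ℂ, w ∈ L.lattice ↔ ∃ a b : ℤ, w = a * Op + b * Om * Complex.I)
    {n : ℕ} (hn : Cls0 n) :
    ∃ F : ℂ → ℂ, Differentiable ℂ F ∧
      (∀ s : ℂ, 3 / 2 < s.re →
        HasProd (fun p : ℕ => if p.Prime then eul n s p else 1) (F s)) ∧
      ∃ y : ℤ, Pool.Agent.N969.P15.cc n = 2 ^ n.primeFactors.card * y ∧ (Odd y ↔ Qc n) ∧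
        18 * F 1 * ((√n : ℝ) : ℂ) = ((Om * (2 ^ n.primeFactors.card * y) ^ 2 : ℝ) : ℂ) := by
  have hco : n.Coprime 15 := by
    have h3 : Nat.Coprime n 3 := by
      rw [Nat.coprime_comm, Nat.Prime.coprime_iff_not_dvd Nat.prime_three]
      have := hn.2
      omega
    have h5 : Nat.Coprime n 5 := by
      rw [Nat.coprime_comm, Nat.Prime.coprime_iff_not_dvd Nat.prime_five]
      have := hn.2
      omega
    exact Nat.Coprime.mul_right h3 h5
  have h4 : n % 4 = 3 := by
    have := hn.2
    omega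
  obtain ⟨F, hF, hprod, hval⟩ := exists_Lex hn.1 h4 hco
  obtain ⟨y, hy, hodd⟩ := Pool.Agent.Run7.h483.P15.t_PAR Run7.h238.P.pc Run7.h238.P.t_CP3
    Pool.Agent.Run7.h135.P15.r n hn
  have hd := Pool.Agent.Run7.h135.P15.t_DIAG n hn
  have hk : kappa = Om := by
    rcases Pool.Agent.Run7.h741.MF.kappa_eq g2 g3 hOm hL with h | h
    · exact h
    · exfalso
      have := Pool.Agent.Run7.h741.MF.kappa_pos
      linarith
  refine ⟨F, hF, hprod, y, hy, hodd, ?_⟩
  have h1 : (18 : ℝ) * ((∑ u ∈ Pool.Agent.N969.P15.un n, jacobiSym u n *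
      Pool.Agent.N969.P15.Fp u n : ℤ) : ℝ) = (2 ^ n.primeFactors.card * y) ^ 2 := by
    have h2 := congrArg (fun x : ℤ => (x : ℝ)) hd
    push_cast at h2
    push_cast
    rw [h2, hy]
    push_cast
    ring
  have h3 : 18 * F 1 * ((√n : ℝ) : ℂ) = 18 * (F 1 * ((√n : ℝ) : ℂ)) := by ring
  rw [h3, hval, hk, ← h1]
  push_cast
  ring

end Run7.h555.P15
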