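import Pool.Agent.Run7.h555.P15.Tg
import Pool.Agent.Run7.h555.P15.M6
import Pool.Agent.Run7.h555.G6.U4

/-!
The Tamagawa numbers and the minimality of the twists by `-n` of `X_0(15)`.
-/

set_option autoImplicit false
set_option linter.unusedSectionVars false

namespace Run7.h555.P15

open NumberField IsDedekindDomain WithZero WeierstrassCurve
open Rat.HeightOneSpectrum (natGenerator primesEquiv prime_natGenerator span_natGenerator)
open Run7.h555.Tam (MinimalAt nonsing c Tm asIdeal_eq mem_iff val_gen val_one val_sqf val_alg cz_compl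
  val_nat delta_int exists_exp vint exp_sq)
open Run7.h555.G6 (AB not_near idx_sq)
open Pool.Agent.Y700 (VR)

lemma Cn.mod4 {n : ℕ} (h : Cn n) : n % 4 = 3 := by
  have := h.2
  omega

lemma Cn.mod3 {n : ℕ} (h : Cn n) : n % 3 = 2 := by
  have := h.2
  omega

lemma Cn.mod5 {n : ℕ} (h : Cn n) : n % 5 = 2 ∨ n % 5 = 3 := by
  have := h.2
  omega

/-- the coefficients of the equation -/
lemma coeffs_n {n : ℕ} (h : n % 4 = 3) : 4 * ((5 * (-(n : ℤ)) - 1) / 4) = -(5 * (n : ℤ)) - 1 ∧
    2 * ((19 * (-(n : ℤ)) ^ 2 + 1) / 2) = 19 * (n : ℤ) ^ 2 + 1 ∧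
    4 * ((39 * (-(n : ℤ)) ^ 3 + 1) / 4) = -(39 * (n : ℤ) ^ 3) + 1 := by
  obtain ⟨c1, c2, c3⟩ := coeffs (D := -(n : ℤ)) (by omega)
  refine ⟨by rw [c1]; ring, by rw [c2]; ring, by rw [c3]; ring⟩

section field

variable {k : Type} [Field k] [CharZero k]

/-- the change of the equation -/
lemma vr {n : ℕ} (h : n % 4 = 3) :
    VR (⟨0, 34 * (n : k), 0, 225 * (n : k) ^ 2, 0⟩ : WeierstrassCurve k)
      ((CI n).map (Int.castRingHom k)) 2 (-13 * n) 1 4 := by
  obtain ⟨c1, c2, c3⟩ := coeffs_n h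
  have d1 : (4 : k) * (((5 * (-(n : ℤ)) - 1) / 4 : ℤ) : k) = -(5 * (n : k)) - 1 := by
    have := congrArg (Int.cast : ℤ → k) c1
    push_cast at this ⊢
    exact this
  have d2 : (2 : k) * (((19 * (-(n : ℤ)) ^ 2 + 1) / 2 : ℤ) : k) = 19 * (n : k) ^ 2 + 1 := by
    have := congrArg (Int.cast : ℤ → k) c2
    push_cast at this ⊢
    exact this
  have d3 : (4 : k) * (((39 * (-(n : ℤ)) ^ 3 + 1) / 4 : ℤ) : k) = -(39 * (n : k) ^ 3) + 1 := by
    have := congrArg (Int.cast : ℤ → k) c3
    push_cast at this ⊢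
    exact this
  refine ⟨two_ne_zero, ?_, ?_, ?_, ?_, ?_⟩
  · show (2 : k) * ((1 : ℤ) : k) = 0 + 2 * 1
    push_cast
    ring
  · show (2 : k) ^ 2 * (((5 * (-(n : ℤ)) - 1) / 4 : ℤ) : k) = 34 * (n : k) - 1 * 0 + 3 * (-13 * n) - 1 ^ 2
    linear_combination d1
  · show (2 : k) ^ 3 * ((1 : ℤ) : k) = 0 + -13 * n * 0 + 2 * 4
    push_cast
    ring
  · show (2 : k) ^ 4 * ((-((19 * (-(n : ℤ)) ^ 2 + 1) / 2) : ℤ) : k) = 225 * (n : k) ^ 2 - 1 * 0 +
      2 * (-13 * n) * (34 * n) - (4 + -13 * n * 1) * 0 + 3 * (-13 * n) ^ 2 - 2 * 1 * 4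
    rw [Int.cast_neg]
    linear_combination (-8 : k) * d2
  · show (2 : k) ^ 6 * ((-((39 * (-(n : ℤ)) ^ 3 + 1) / 4) : ℤ) : k) = 0 + -13 * n * (225 * n ^ 2) +
      (-13 * n) ^ 2 * (34 * n) + (-13 * n) ^ 3 - 4 * 0 - 4 ^ 2 - -13 * n * 4 * 0
    rw [Int.cast_neg]
    linear_combination (-16 : k) * d3

/-- the discriminant -/
lemma disc {n : ℕ} (h : n % 4 = 3) :
    ((CI n).map (Int.castRingHom k)).Δ = 50625 * (n : k) ^ 6 := by
  have h1 := (vr (k := k) h).delta
  have h2 : (⟨0, 34 * (n : k), 0, 225 * (n : k) ^ 2, 0⟩ : WeierstrassCurve k).Δ =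
      2 ^ 12 * (50625 * (n : k) ^ 6) := by
    unfold WeierstrassCurve.Δ WeierstrassCurve.b₂ WeierstrassCurve.b₄ WeierstrassCurve.b₆
      WeierstrassCurve.b₈
    ring
  rw [h2] at h1
  exact (mul_left_cancel₀ (pow_ne_zero 12 two_ne_zero) h1).symm

end field

lemma bc (n : ℕ) (k : Type) [Field k] [Algebra ℚ k] :
    (EI n).baseChange k = (CI n).map (Int.castRingHom k) := by
  have : CharZero k := charZero_of_injective_algebraMap (algebraMap ℚ k).injective
  rw [WeierstrassCurve.baseChange, WeierstrassCurve.map_map]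
  congr 1
  exact RingHom.ext_int _ _

variable (v : HeightOneSpectrum (𝓞 ℚ))

lemma ic (n : ℕ) : Ic ((CI n).map (Int.castRingHom (v.adicCompletion ℚ))) Valued.v :=
  ⟨vint _ _, vint _ _, vint _ _, vint _ _, vint _ _⟩

lemma bI (n : ℕ) : Ic ((EI n).baseChange (v.adicCompletion ℚ)) Valued.v := by
  rw [bc]
  exact ic v n

lemma bV {n : ℕ} (h4 : n % 4 = 3) :
    VR (⟨0, 34 * (n : v.adicCompletion ℚ), 0, 225 * (n : v.adicCompletion ℚ) ^ 2, 0⟩ :
      WeierstrassCurve (v.adicCompletion ℚ))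
      ((EI n).baseChange (v.adicCompletion ℚ)) 2 (-13 * n) 1 4 := by
  rw [bc]
  have := cz_compl v
  exact vr h4

lemma bD {n : ℕ} (h4 : n % 4 = 3) :
    ((EI n).baseChange (v.adicCompletion ℚ)).Δ = 50625 * (n : v.adicCompletion ℚ) ^ 6 := by
  rw [bc]
  have := cz_compl v
  exact disc h4

lemma nsq3 {n : ℕ} (h : n % 3 = 2) {q : ℕ} (hq : q = 3) :
    ¬ IsSquare ((((25 * n : ℕ) : ℤ)) : ZMod q) := by
  subst hq
  have e : ((((25 * n : ℕ) : ℤ)) : ZMod 3) = 2 := by
    have h1 : ((n : ℕ) : ZMod 3) = 2 := by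
      have := (ZMod.natCast_eq_natCast_iff' n 2 3).2 (by omega)
      exact_mod_cast this
    push_cast
    rw [h1]
    rfl
  rw [e]
  decide

lemma nsq5 {n : ℕ} (h : n % 5 = 2 ∨ n % 5 = 3) {q : ℕ} (hq : q = 5) :
    ¬ IsSquare ((((9 * n : ℕ) : ℤ)) : ZMod q) := by
  subst hq
  rcases h with h | h
  · have e : ((((9 * n : ℕ) : ℤ)) : ZMod 5) = 3 := by
      have h1 : ((n : ℕ) : ZMod 5) = 2 := by
        have := (ZMod.natCast_eq_natCast_iff' n 2 5).2 (by omega)
        exact_mod_cast this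
      push_cast
      rw [h1]
      rfl
    rw [e]
    decide
  · have e : ((((9 * n : ℕ) : ℤ)) : ZMod 5) = 2 := by
      have h1 : ((n : ℕ) : ZMod 5) = 3 := by
        have := (ZMod.natCast_eq_natCast_iff' n 3 5).2 (by omega)
        exact_mod_cast this
      push_cast
      rw [h1]
      rfl
    rw [e]
    decide

/-- the Tamagawa number at `p` -/
def tam (n p : ℕ) : ℕ := if p = 3 ∨ p = 5 then 2 else if p ∣ n then 4 else 1

/-- **the Tamagawa numbers** -/
theorem c_eq {n : ℕ} (h : Cn n) : c (EI n) v = tam n (natGenerator v) := by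
  have := cz_compl v
  have hp := prime_natGenerator v
  set p := natGenerator v with hpv
  have hn := h.1
  have h4 := h.mod4
  have hn0 : ((n : ℕ) : v.adicCompletion ℚ) ≠ 0 := by exact_mod_cast hn.ne_zero
  have hv1 : ∀ m : ℕ, ¬ p ∣ m → Valued.v ((m : ℕ) : v.adicCompletion ℚ) = 1 := by
    intro m hm
    rw [val_nat, val_one v hm]
  have hI := bI v n
  have hV := bV v h4
  have hΔ := bD v h4
  have h5 : (50625 : v.adicCompletion ℚ) ≠ 0 := by norm_num
  have hΔ0 := hΔ.trans_ne (mul_ne_zero h5 (pow_ne_zero 6 hn0))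
  have hAB : AB (⟨0, 34 * (n : v.adicCompletion ℚ), 0, 225 * (n : v.adicCompletion ℚ) ^ 2, 0⟩ :
      WeierstrassCurve (v.adicCompletion ℚ)) (34 * (n : v.adicCompletion ℚ))
      (225 * (n : v.adicCompletion ℚ) ^ 2) :=
    ⟨rfl, rfl, rfl, rfl, rfl, mul_ne_zero (by norm_num) (pow_ne_zero 2 hn0)⟩
  have h13 : Valued.v (-13 * (n : v.adicCompletion ℚ)) ≤ 1 := by
    have := vint (Valued.v : Valuation (v.adicCompletion ℚ) ℤᵐ⁰) (-13 * (n : ℤ))
    push_cast at this
    exact this
  have hs1 : Valued.v (1 : v.adicCompletion ℚ) ≤ 1 := by rw [map_one]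
  have hodd : p ≠ 2 → Valued.v (2 : v.adicCompletion ℚ) = 1 := by
    intro h2
    have := hv1 2 (fun h' => h2 ((Nat.prime_dvd_prime_iff_eq hp Nat.prime_two).1 h'))
    exact_mod_cast this
  have mv : p ≠ 2 → ∀ m : ℕ,
      (letI : DecidableEq (v.adicCompletion ℚ) := Classical.decEq _
      (AddSubgroup.closure (NS
        (⟨0, 34 * (n : v.adicCompletion ℚ), 0, 225 * (n : v.adicCompletion ℚ) ^ 2, 0⟩ :
        WeierstrassCurve (v.adicCompletion ℚ)) Valued.v)).index) = m → c (EI n) v = m := by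
    intro h2 m hm
    rw [← hm]
    exact @idx_vc _ _ _ _ (Classical.decEq _) Valued.v _ _ _ _ hV hΔ0 (hodd h2) h13 hs1 hI
  unfold tam
  split_ifs with h1 h2
  · -- the places three and five
    have hp2 : p ≠ 2 := by
      rcases h1 with h1 | h1 <;> omega
    have : Fact p.Prime := ⟨hp⟩
    have hn1 : ¬ p ∣ n := by
      have a3 := h.mod3
      have a5 := h.mod5
      rcases h1 with h1 | h1 <;> rw [h1] <;> omega
    have wn := hv1 n hn1
    have ww : ∀ q : ℕ, q.Prime → p = q → Valued.v (q : v.adicCompletion ℚ) = exp (-1) := by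
      intro q hq hpq
      rw [val_nat, val_sqf v hq.prime.squarefree (by rw [← hpv, hpq])]
    refine mv hp2 2 ?_
    rcases h1 with h1 | h1
    · have w3 : Valued.v (3 : v.adicCompletion ℚ) = exp (-1) := by
        have := ww 3 Nat.prime_three h1
        exact_mod_cast this
      have w25 : Valued.v (25 : v.adicCompletion ℚ) = 1 := by
        have := hv1 25 (by rw [h1]; norm_num)
        exact_mod_cast this
      refine @idx_I4ns _ _ _ (Classical.decEq _) Valued.v _ _ hAB (hodd hp2)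
        (-25 * (n : v.adicCompletion ℚ)) (-9 * (n : v.adicCompletion ℚ)) (by ring) (by ring) ?_ ?_ ?_
      · rw [map_mul, Valuation.map_neg, w25, wn, one_mul]
      · have e9 : (-9 : v.adicCompletion ℚ) = -(3 ^ 2) := by norm_num
        rw [map_mul, e9, Valuation.map_neg, map_pow, w3, wn, mul_one, exp_sq]
        norm_num
      · intro s hs
        apply not_near v (nsq3 h.mod3 h1) s
        have e5 : ((((25 * n : ℕ) : ℤ)) : v.adicCompletion ℚ) - s ^ 2 =
            -(-25 * (n : v.adicCompletion ℚ)) - s ^ 2 := by push_cast; ring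
        rw [e5]
        exact hs
    · have w5 : Valued.v (5 : v.adicCompletion ℚ) = exp (-1) := by
        have := ww 5 Nat.prime_five h1
        exact_mod_cast this
      have w9 : Valued.v (9 : v.adicCompletion ℚ) = 1 := by
        have := hv1 9 (by rw [h1]; norm_num)
        exact_mod_cast this
      refine @idx_I4ns _ _ _ (Classical.decEq _) Valued.v _ _ hAB (hodd hp2)
        (-9 * (n : v.adicCompletion ℚ)) (-25 * (n : v.adicCompletion ℚ)) (by ring) (by ring) ?_ ?_ ?_
      · rw [map_mul, Valuation.map_neg, w9, wn, one_mul]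
      · have e9 : (-25 : v.adicCompletion ℚ) = -(5 ^ 2) := by norm_num
        rw [map_mul, e9, Valuation.map_neg, map_pow, w5, wn, mul_one, exp_sq]
        norm_num
      · intro s hs
        apply not_near v (nsq5 h.mod5 h1) s
        have e5 : ((((9 * n : ℕ) : ℤ)) : v.adicCompletion ℚ) - s ^ 2 =
            -(-9 * (n : v.adicCompletion ℚ)) - s ^ 2 := by push_cast; ring
        rw [e5]
        exact hs
  · -- the prime divisors of `n`
    push Not at h1
    have hp2 : p ≠ 2 := by
      intro h3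
      rw [h3] at h2
      omega
    refine mv hp2 4 ?_
    have w9 : Valued.v (9 : v.adicCompletion ℚ) = 1 := by
      have := hv1 9 (fun h' => h1.1 ((Nat.prime_dvd_prime_iff_eq hp Nat.prime_three).1
        (hp.dvd_of_dvd_pow (show p ∣ 3 ^ 2 from h'))))
      exact_mod_cast this
    have w225 : Valued.v (225 : v.adicCompletion ℚ) = 1 := by
      have := hv1 225 (fun h' => by
        have h6 : p ∣ 3 ^ 2 * 5 ^ 2 := h'
        rcases hp.dvd_mul.1 h6 with h7 | h7
        · exact h1.1 ((Nat.prime_dvd_prime_iff_eq hp Nat.prime_three).1 (hp.dvd_of_dvd_pow h7))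
        · exact h1.2 ((Nat.prime_dvd_prime_iff_eq hp Nat.prime_five).1 (hp.dvd_of_dvd_pow h7)))
      exact_mod_cast this
    have w34 : Valued.v (34 : v.adicCompletion ℚ) ≤ 1 := by
      have := vint (Valued.v : Valuation (v.adicCompletion ℚ) ℤᵐ⁰) 34
      exact_mod_cast this
    refine @idx_sq _ _ _ (Classical.decEq _) Valued.v _ _ _ hAB w34 w225 ?_ (-9) (-25) (by norm_num)
      (by norm_num) (by rw [Valuation.map_neg, w9]) (by norm_num)
    rw [val_nat, val_sqf v hn h2]
  · -- good reduction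
    push Not at h1
    refine @idx_disc _ _ _ (Classical.decEq _) Valued.v hI ?_
    rw [hΔ, map_mul, map_pow]
    have e1 : ¬ p ∣ 50625 := by
      intro h'
      have h6 : p ∣ 3 ^ 4 * 5 ^ 4 := h'
      rcases hp.dvd_mul.1 h6 with h7 | h7
      · exact h1.1 ((Nat.prime_dvd_prime_iff_eq hp Nat.prime_three).1 (hp.dvd_of_dvd_pow h7))
      · exact h1.2 ((Nat.prime_dvd_prime_iff_eq hp Nat.prime_five).1 (hp.dvd_of_dvd_pow h7))
    have e2 := hv1 50625 e1
    have e3 : Valued.v (50625 : v.adicCompletion ℚ) = 1 := by exact_mod_cast e2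
    rw [e3, hv1 n h2, one_pow, mul_one]

lemma Cn.three {n : ℕ} (h : Cn n) : ¬ 3 ∣ n := by
  have := h.mod3
  omega

lemma Cn.five {n : ℕ} (h : Cn n) : ¬ 5 ∣ n := by
  have := h.mod5
  omega

/-- **the product of the Tamagawa numbers** -/
theorem tam_eq : S_TAM := by
  classical
  intro n h
  have hm := h.1
  have hc2 : Nat.Coprime 5 n := (Nat.Prime.coprime_iff_not_dvd Nat.prime_five).2 h.five
  have hc3 : Nat.Coprime 3 n := (Nat.Prime.coprime_iff_not_dvd Nat.prime_three).2 h.three
  have hc23 : Nat.Coprime 3 (5 * n) := Nat.Coprime.mul_right (by norm_num) hc3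
  have hm2 : Squarefree (3 * (5 * n)) := by
    rw [Nat.squarefree_mul_iff, Nat.squarefree_mul_iff]
    exact ⟨hc23, Nat.prime_three.prime.squarefree, hc2, Nat.prime_five.prime.squarefree, hm⟩
  set S : Finset (HeightOneSpectrum (𝓞 ℚ)) :=
    (3 * (5 * n)).primeFactors.attach.image
      (fun p => primesEquiv.symm ⟨p.1, Nat.prime_of_mem_primeFactors p.2⟩) with hS
  have hgen : ∀ p : Nat.Primes, natGenerator (primesEquiv.symm p : HeightOneSpectrum (𝓞 ℚ)) = p := by
    intro p
    have := congrArg Subtype.val ((primesEquiv (R := 𝓞 ℚ)).apply_symm_apply p)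
    exact this
  have hmem : ∀ v : HeightOneSpectrum (𝓞 ℚ), v ∈ S ↔ natGenerator v ∣ 3 * (5 * n) := by
    intro v
    rw [hS, Finset.mem_image]
    constructor
    · rintro ⟨p, -, rfl⟩
      rw [hgen]
      exact Nat.dvd_of_mem_primeFactors p.2
    · intro h
      have hp : natGenerator v ∈ (3 * (5 * n)).primeFactors :=
        Nat.mem_primeFactors.2 ⟨prime_natGenerator v, h, hm2.ne_zero⟩
      refine ⟨⟨natGenerator v, hp⟩, Finset.mem_attach _ _, ?_⟩
      exact primesEquiv.symm_apply_apply v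
  unfold Tm
  rw [finprod_eq_prod_of_mulSupport_subset (s := S)]
  · rw [Finset.prod_congr rfl (g := fun v => tam n (natGenerator v)) (fun v _ => c_eq v h), hS,
      Finset.prod_image]
    · rw [Finset.prod_congr rfl (g := fun p => tam n p.1) (fun p _ => by rw [hgen]),
        Finset.prod_attach (3 * (5 * n)).primeFactors (tam n)]
      have p5 : Nat.primeFactors 5 = {5} := Nat.Prime.primeFactors Nat.prime_five
      have p3 : Nat.primeFactors 3 = {3} := Nat.Prime.primeFactors Nat.prime_three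
      rw [hc23.primeFactors_mul, Finset.prod_union hc23.disjoint_primeFactors, hc2.primeFactors_mul,
        Finset.prod_union hc2.disjoint_primeFactors, p5, p3, Finset.prod_singleton,
        Finset.prod_singleton]
      have e3 : tam n 3 = 2 := by unfold tam; rw [if_pos (Or.inl rfl)]
      have e5 : tam n 5 = 2 := by unfold tam; rw [if_pos (Or.inr rfl)]
      have en : ∏ p ∈ n.primeFactors, tam n p = 4 ^ n.primeFactors.card := by
        rw [Finset.prod_congr rfl (g := fun _ => 4), Finset.prod_const]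
        intro p hp
        have hpm := Nat.dvd_of_mem_primeFactors hp
        unfold tam
        rw [if_neg (by
          rintro (rfl | rfl)
          · exact h.three hpm
          · exact h.five hpm), if_pos hpm]
      rw [e3, e5, en]
      ring
    · intro p _ q _ hpq
      have h3 := primesEquiv.symm.injective hpq
      have h4 : (p : ℕ) = (q : ℕ) := congrArg (fun r : Nat.Primes => (r : ℕ)) h3
      exact Subtype.ext h4
  · intro v hv
    rw [Finset.mem_coe, hmem]
    by_contra hn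
    apply hv
    rw [c_eq v h]
    unfold tam
    rw [if_neg (by
      rintro (h' | h')
      · exact hn (by rw [h']; exact dvd_mul_right _ _)
      · exact hn (by rw [h']; exact ⟨3 * n, by ring⟩)),
      if_neg (fun h' => hn ((h'.mul_left 5).mul_left 3))]

/-- the order of the discriminant -/
lemma val_delta {n : ℕ} (h : Cn n) :
    ∃ k : ℤ, 0 ≤ k ∧ k < 12 ∧ v.valuation ℚ (EI n).Δ = exp (-k) := by
  have hm := h.1
  have hd : (EI n).Δ = ((3 : ℕ) : ℚ) ^ 4 * ((5 : ℕ) : ℚ) ^ 4 * ((n : ℕ) : ℚ) ^ 6 := by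
    have := disc (k := ℚ) h.mod4
    have e2 : (EI n).Δ = 50625 * (n : ℚ) ^ 6 := this
    rw [e2]
    push_cast
    ring
  have e : v.valuation ℚ (EI n).Δ = v.valuation ℚ ((3 : ℕ) : ℚ) ^ 4 * v.valuation ℚ ((5 : ℕ) : ℚ) ^ 4 *
      v.valuation ℚ ((n : ℕ) : ℚ) ^ 6 := by
    rw [hd, map_mul, map_mul, map_pow, map_pow, map_pow]
  rw [e]
  have hp := prime_natGenerator v
  have n5 : natGenerator v ∣ 5 → natGenerator v = 5 := (Nat.prime_dvd_prime_iff_eq hp Nat.prime_five).1
  have n3 : natGenerator v ∣ 3 → natGenerator v = 3 := (Nat.prime_dvd_prime_iff_eq hp Nat.prime_three).1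
  by_cases hv : natGenerator v ∣ n
  · have h3 : ¬ natGenerator v ∣ 5 := by
      intro h'
      rw [n5 h'] at hv
      exact h.five hv
    have h3' : ¬ natGenerator v ∣ 3 := by
      intro h'
      rw [n3 h'] at hv
      exact h.three hv
    rw [val_sqf v hm hv, val_one v h3, val_one v h3', one_pow, one_mul, one_mul, ← exp_nsmul]
    exact ⟨6, by norm_num, by norm_num, by norm_num⟩
  · rw [val_one v hv, one_pow, mul_one]
    by_cases h3 : natGenerator v ∣ 5
    · have h3' : ¬ natGenerator v ∣ 3 := by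
        rw [n5 h3]
        norm_num
      rw [val_sqf v Nat.prime_five.prime.squarefree h3, val_one v h3', one_pow, one_mul, ← exp_nsmul]
      exact ⟨4, by norm_num, by norm_num, by norm_num⟩
    · by_cases h3' : natGenerator v ∣ 3
      · rw [val_sqf v Nat.prime_three.prime.squarefree h3', val_one v h3, one_pow, mul_one, ← exp_nsmul]
        exact ⟨4, by norm_num, by norm_num, by norm_num⟩
      · rw [val_one v h3, val_one v h3', one_pow, mul_one]
        exact ⟨0, le_rfl, by norm_num, by simp⟩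

/-- **the equation is minimal** -/
theorem minimal : S_MIN := by
  intro n h v C h1 h2' h3 h4 h6
  have hint := delta_int (C • EI n) h1 h2' h3 h4 h6
  obtain ⟨k, hk0, hk, hd⟩ := val_delta v h
  rw [variableChange_Δ, map_mul, map_pow, hd] at hint ⊢
  obtain ⟨l, hl⟩ := exists_exp (v.valuation ℚ) (C.u⁻¹).ne_zero
  rw [hl, ← exp_nsmul, ← exp_add] at hint ⊢
  rw [← exp_zero, exp_le_exp] at hint
  rw [exp_le_exp]
  simp only [nsmul_eq_mul] at hint ⊢
  push_cast at hint ⊢
  omega

end Run7.h555.P15
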