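import Pool.Agent.W165.CE.FF
import Pool.Agent.Y812.XF.HtKd
import Pool.Agent.Run7.h741.MF.Stm

/-!
The numbers of points of the twists of `X_0(15)`.
-/

set_option autoImplicit false

open WeierstrassCurve

namespace Run7.h555.P15

open Pool.Agent.W97.MT (affCount ap)
open Pool.Agent.Run7.h741.MF (E15)
open Pool.Agent.Y682.XF (kr)
open Pool.Agent.H82R3.EK (card_points)

/-- the quadratic twist by `D = 1` modulo `4` of the curve `X_0(15)` -/
def WT (D : ℤ) : WeierstrassCurve ℤ :=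
  ⟨1, (5 * D - 1) / 4, 1, -((19 * D ^ 2 + 1) / 2), -((39 * D ^ 3 + 1) / 4)⟩

lemma WT_one : WT 1 = E15 := by
  unfold WT E15
  norm_num

/-- the coefficients of the equation of the twist -/
lemma coeffs {D : ℤ} (hD : D % 4 = 1) : 4 * ((5 * D - 1) / 4) = 5 * D - 1 ∧
    2 * ((19 * D ^ 2 + 1) / 2) = 19 * D ^ 2 + 1 ∧ 4 * ((39 * D ^ 3 + 1) / 4) = 39 * D ^ 3 + 1 := by
  obtain ⟨m, rfl⟩ : ∃ m, D = 4 * m + 1 := ⟨D / 4, by omega⟩
  refine ⟨by omega, ?_, ?_⟩
  · rw [show 19 * (4 * m + 1) ^ 2 + 1 = 2 * (152 * m ^ 2 + 76 * m + 10) by ring]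
    omega
  · rw [show 39 * (4 * m + 1) ^ 3 + 1 = 4 * (39 * (16 * m ^ 3 + 12 * m ^ 2 + 3 * m) + 10) by ring]
    omega

/-- the equation of the twist -/
lemma equation_iff (D : ℤ) (R : Type) [CommRing R] (x y : R) :
    ((WT D).map (Int.castRingHom R)).toAffine.Equation x y ↔
      y ^ 2 + x * y + y = x ^ 3 + (((5 * D - 1) / 4 : ℤ) : R) * x ^ 2 -
        (((19 * D ^ 2 + 1) / 2 : ℤ) : R) * x - (((39 * D ^ 3 + 1) / 4 : ℤ) : R) := by
  rw [WeierstrassCurve.Affine.equation_iff]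
  unfold WT
  simp only [WeierstrassCurve.map, eq_intCast]
  rw [Int.cast_neg, Int.cast_neg, Int.cast_one]
  constructor
  · intro h
    linear_combination h
  · intro h
    linear_combination h

/-- the cubic form in odd characteristic -/
lemma pts_cubic {D : ℤ} (hD : D % 4 = 1) (k : Type) [Field k] (h2 : (2 : k) ≠ 0) :
    Nat.card {P : k × k // ((WT D).map (Int.castRingHom k)).toAffine.Equation P.1 P.2} =
    Nat.card {x : k × k // x.2 ^ 2 = x.1 * (x.1 - 9 * D) * (x.1 - 25 * D)} := by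
  obtain ⟨c1, c2, c3⟩ := coeffs hD
  have h4 : (4 : k) ≠ 0 := by
    rw [show (4 : k) = 2 * 2 by norm_num]
    exact mul_ne_zero h2 h2
  have h8 : (8 : k) ≠ 0 := by
    rw [show (8 : k) = 2 * 4 by norm_num]
    exact mul_ne_zero h2 h4
  have h64 : (64 : k) ≠ 0 := by
    rw [show (64 : k) = 8 * 8 by norm_num]
    exact mul_ne_zero h8 h8
  have d1 : (4 : k) * (((5 * D - 1) / 4 : ℤ) : k) = 5 * D - 1 := by
    have := congrArg (Int.cast : ℤ → k) c1
    push_cast at this
    linear_combination this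
  have d2 : (2 : k) * (((19 * D ^ 2 + 1) / 2 : ℤ) : k) = 19 * D ^ 2 + 1 := by
    have := congrArg (Int.cast : ℤ → k) c2
    push_cast at this
    linear_combination this
  have d3 : (4 : k) * (((39 * D ^ 3 + 1) / 4 : ℤ) : k) = 39 * D ^ 3 + 1 := by
    have := congrArg (Int.cast : ℤ → k) c3
    push_cast at this
    linear_combination this
  refine Nat.card_congr
    { toFun := fun x => ⟨(4 * x.1.1 + 13 * D, 4 * (2 * x.1.2 + x.1.1 + 1)), ?_⟩
      invFun := fun x => ⟨((x.1.1 - 13 * D) / 4, (x.1.2 / 4 - (x.1.1 - 13 * D) / 4 - 1) / 2), ?_⟩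
      left_inv := fun x => ?_
      right_inv := fun x => ?_ }
  · have h := (equation_iff D k x.1.1 x.1.2).1 x.2
    show (4 * (2 * x.1.2 + x.1.1 + 1)) ^ 2 = (4 * x.1.1 + 13 * D) *
      (4 * x.1.1 + 13 * D - 9 * D) * (4 * x.1.1 + 13 * D - 25 * D)
    linear_combination 64 * h + 16 * x.1.1 ^ 2 * d1 - 32 * x.1.1 * d2 - 16 * d3
  · have h := x.2
    rw [equation_iff]
    obtain ⟨X, hX⟩ : ∃ X, X = (x.1.1 - 13 * D) / 4 := ⟨_, rfl⟩
    obtain ⟨Y, hY⟩ : ∃ Y, Y = (x.1.2 / 4 - X - 1) / 2 := ⟨_, rfl⟩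
    have e1 : x.1.1 = 4 * X + 13 * D := by
      rw [hX]
      field_simp
      ring
    have e2 : x.1.2 = 4 * (2 * Y + X + 1) := by
      rw [hY]
      field_simp
      ring
    rw [← hX, ← hY]
    apply mul_left_cancel₀ h64
    rw [e1, e2] at h
    linear_combination h - 16 * X ^ 2 * d1 + 32 * X * d2 + 16 * d3
  · apply Subtype.ext
    apply Prod.ext
    · show (4 * x.1.1 + 13 * D - 13 * D) / 4 = x.1.1
      field_simp
      ring
    · show (4 * (2 * x.1.2 + x.1.1 + 1) / 4 - (4 * x.1.1 + 13 * D - 13 * D) / 4 - 1) / 2 = x.1.2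
      field_simp
      ring
  · apply Subtype.ext
    apply Prod.ext
    · show 4 * ((x.1.1 - 13 * D) / 4) + 13 * D = x.1.1
      field_simp
      ring
    · show 4 * (2 * ((x.1.2 / 4 - (x.1.1 - 13 * D) / 4 - 1) / 2) + (x.1.1 - 13 * D) / 4 + 1) = x.1.2
      field_simp
      ring

section sums

variable {k : Type} [Field k] [Fintype k] [DecidableEq k]

/-- the character sum -/
noncomputable def cs (D : k) : ℤ := ∑ x : k, quadraticChar k (x * (x - 9 * D) * (x - 25 * D))

lemma cs_scale (hk : ringChar k ≠ 2) (D : k) : cs D = quadraticChar k D * cs (1 : k) := by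
  by_cases hD : D = 0
  · rw [hD, MulChar.map_zero, zero_mul]
    unfold cs
    simp only [mul_zero, sub_zero]
    have h1 : ∀ x : k, quadraticChar k (x * x * x) = quadraticChar k x := by
      intro x
      rw [map_mul, map_mul]
      by_cases hx : x = 0
      · rw [hx, MulChar.map_zero, mul_zero]
      · rw [← pow_two, quadraticChar_sq_one hx, one_mul]
    simp_rw [h1]
    exact quadraticChar_sum_zero hk
  · unfold cs
    rw [Finset.mul_sum]
    have e := Equiv.sum_comp (Equiv.mulLeft₀ D hD)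
      (fun x => quadraticChar k (x * (x - 9 * D) * (x - 25 * D)))
    rw [← e]
    refine Finset.sum_congr rfl fun x _ => ?_
    show quadraticChar k (D * x * (D * x - 9 * D) * (D * x - 25 * D)) = _
    have e1 : D * x * (D * x - 9 * D) * (D * x - 25 * D) =
        D ^ 2 * (D * (x * (x - 9 * 1) * (x - 25 * 1))) := by ring
    rw [e1, map_mul, map_pow, quadraticChar_sq_one hD, one_mul, map_mul]

end sums

lemma two_ne {p : ℕ} [Fact p.Prime] (hp2 : p ≠ 2) : (2 : ZMod p) ≠ 0 := by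
  intro h
  have h1 : ((2 : ℕ) : ZMod p) = 0 := by exact_mod_cast h
  rw [ZMod.natCast_eq_zero_iff] at h1
  exact hp2 ((Nat.prime_dvd_prime_iff_eq Fact.out Nat.prime_two).1 h1)

lemma ap_odd {D : ℤ} (hD : D % 4 = 1) {p : ℕ} [Fact p.Prime] (hp2 : p ≠ 2) :
    ap (WT D) p = -cs (D : ZMod p) := by
  have hF : ringChar (ZMod p) ≠ 2 := by
    rw [ZMod.ringChar_zmod_n]; exact hp2
  unfold ap affCount
  rw [pts_cubic hD (ZMod p) (two_ne hp2),
    card_points hF (fun x => x * (x - 9 * (D : ZMod p)) * (x - 25 * (D : ZMod p))), ZMod.card]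
  unfold cs
  ring

lemma three_pts : Nat.card {P : ZMod 2 × ZMod 2 // P.2 ^ 2 + P.1 * P.2 + P.2 =
    P.1 ^ 3 + 1 * P.1 ^ 2 - 0 * P.1 - 0} = 3 := by
  rw [Nat.card_eq_fintype_card]
  decide

lemma one_pt : Nat.card {P : ZMod 2 × ZMod 2 // P.2 ^ 2 + P.1 * P.2 + P.2 =
    P.1 ^ 3 + 0 * P.1 ^ 2 - 0 * P.1 - 1} = 1 := by
  rw [Nat.card_eq_fintype_card]
  decide

/-- **the twist** -/
theorem ap_twist {D : ℤ} (hD : D % 4 = 1) {p : ℕ} (hp : p.Prime) :
    ap (WT D) p = kr D p * ap E15 p := by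
  have : Fact p.Prime := ⟨hp⟩
  unfold kr
  by_cases hp2 : p = 2
  · subst hp2
    rw [if_pos rfl]
    have h8 : D % 8 = 1 ∨ D % 8 = 5 := by omega
    have hc : ∀ D : ℤ, affCount (WT D) 2 = Nat.card {P : ZMod 2 × ZMod 2 //
        P.2 ^ 2 + P.1 * P.2 + P.2 = P.1 ^ 3 + (((5 * D - 1) / 4 : ℤ) : ZMod 2) * P.1 ^ 2 -
        (((19 * D ^ 2 + 1) / 2 : ℤ) : ZMod 2) * P.1 - (((39 * D ^ 3 + 1) / 4 : ℤ) : ZMod 2)} := by
      intro D
      unfold affCount
      refine Nat.card_congr (Equiv.subtypeEquivRight fun P => ?_)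
      exact equation_iff D (ZMod 2) P.1 P.2
    have h1 : ∀ D : ℤ, D % 8 = 1 → ap (WT D) 2 = -1 := by
      intro D hD
      obtain ⟨m, rfl⟩ : ∃ m, D = 8 * m + 1 := ⟨D / 8, by omega⟩
      have a1 : (((5 * (8 * m + 1) - 1) / 4 : ℤ) : ZMod 2) = 1 := by
        have e : (5 * (8 * m + 1) - 1) / 4 = 2 * (5 * m) + 1 := by omega
        rw [e]
        push_cast
        rw [show (2 : ZMod 2) = 0 by rfl]
        ring
      have a2 : (((19 * (8 * m + 1) ^ 2 + 1) / 2 : ℤ) : ZMod 2) = 0 := by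
        have e : (19 * (8 * m + 1) ^ 2 + 1) / 2 = 2 * (304 * m ^ 2 + 76 * m + 5) := by
          rw [show 19 * (8 * m + 1) ^ 2 + 1 = 2 * (2 * (304 * m ^ 2 + 76 * m + 5)) by ring]
          omega
        rw [e]
        push_cast
        rw [show (2 : ZMod 2) = 0 by rfl]
        ring
      have a3 : (((39 * (8 * m + 1) ^ 3 + 1) / 4 : ℤ) : ZMod 2) = 0 := by
        have e : (39 * (8 * m + 1) ^ 3 + 1) / 4 =
            2 * (39 * (64 * m ^ 3 + 24 * m ^ 2 + 3 * m) + 5) := by
          rw [show 39 * (8 * m + 1) ^ 3 + 1 =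
            4 * (2 * (39 * (64 * m ^ 3 + 24 * m ^ 2 + 3 * m) + 5)) by ring]
          omega
        rw [e]
        push_cast
        rw [show (2 : ZMod 2) = 0 by rfl]
        ring
      unfold ap
      rw [hc, a1, a2, a3]
      rw [three_pts]
      norm_num
    have h5 : ∀ D : ℤ, D % 8 = 5 → ap (WT D) 2 = 1 := by
      intro D hD
      obtain ⟨m, rfl⟩ : ∃ m, D = 8 * m + 5 := ⟨D / 8, by omega⟩
      have a1 : (((5 * (8 * m + 5) - 1) / 4 : ℤ) : ZMod 2) = 0 := by
        have e : (5 * (8 * m + 5) - 1) / 4 = 2 * (5 * m + 3) := by omega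
        rw [e]
        push_cast
        rw [show (2 : ZMod 2) = 0 by rfl]
        ring
      have a2 : (((19 * (8 * m + 5) ^ 2 + 1) / 2 : ℤ) : ZMod 2) = 0 := by
        have e : (19 * (8 * m + 5) ^ 2 + 1) / 2 = 2 * (304 * m ^ 2 + 380 * m + 119) := by
          rw [show 19 * (8 * m + 5) ^ 2 + 1 = 2 * (2 * (304 * m ^ 2 + 380 * m + 119)) by ring]
          omega
        rw [e]
        push_cast
        rw [show (2 : ZMod 2) = 0 by rfl]
        ring
      have a3 : (((39 * (8 * m + 5) ^ 3 + 1) / 4 : ℤ) : ZMod 2) = 1 := by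
        have e : (39 * (8 * m + 5) ^ 3 + 1) / 4 =
            2 * (39 * (64 * m ^ 3 + 120 * m ^ 2 + 75 * m) + 609) + 1 := by
          rw [show 39 * (8 * m + 5) ^ 3 + 1 =
            4 * (2 * (39 * (64 * m ^ 3 + 120 * m ^ 2 + 75 * m) + 609) + 1) by ring]
          omega
        rw [e]
        push_cast
        rw [show (2 : ZMod 2) = 0 by rfl]
        ring
      unfold ap
      rw [hc, a1, a2, a3]
      rw [one_pt]
      norm_num
    rw [← WT_one, h1 1 (by norm_num)]
    rcases h8 with h8 | h8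
    · rw [if_pos h8, h1 D h8]
      norm_num
    · rw [if_neg (by omega), h5 D h8]
      norm_num
  · rw [if_neg hp2, ap_odd hD hp2, ← WT_one, ap_odd (by norm_num) hp2]
    have hF : ringChar (ZMod p) ≠ 2 := by
      rw [ZMod.ringChar_zmod_n]; exact hp2
    rw [cs_scale hF, Int.cast_one]
    have e : quadraticChar (ZMod p) (D : ZMod p) = jacobiSym D p := by
      rw [← jacobiSym.legendreSym.to_jacobiSym]
      rfl
    rw [e]
    ring

/-- Hasse's bound -/
theorem ap_good {l : ℕ} (hl : l.Prime) (h : ¬ l ∣ 15) : |(ap E15 l : ℝ)| ≤ 2 * Real.sqrt l := by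
  have : Fact l.Prime := ⟨hl⟩
  by_cases hp2 : l = 2
  · subst hp2
    have h1 : ap E15 2 = -1 := by
      unfold ap
      rw [← WT_one]
      unfold affCount
      have e : Nat.card {P : ZMod 2 × ZMod 2 //
          ((WT 1).map (Int.castRingHom (ZMod 2))).toAffine.Equation P.1 P.2} =
          Nat.card {P : ZMod 2 × ZMod 2 // P.2 ^ 2 + P.1 * P.2 + P.2 =
          P.1 ^ 3 + 1 * P.1 ^ 2 - 0 * P.1 - 0} := by
        refine Nat.card_congr (Equiv.subtypeEquivRight fun P => ?_)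
        rw [equation_iff]
        norm_num
        have e1 : ((10 : ℤ) : ZMod 2) = 0 := by rfl
        have e2 : (10 : ZMod 2) = 0 := by rfl
        simp only [e2, zero_mul, sub_zero]
      rw [e]
      rw [three_pts]
      norm_num
    rw [h1]
    have h2 : (1 : ℝ) ≤ Real.sqrt 2 := by
      rw [Real.one_le_sqrt]; norm_num
    push_cast
    rw [abs_neg, abs_one]
    linarith
  · have hF : ringChar (ZMod l) ≠ 2 := by
      rw [ZMod.ringChar_zmod_n]; exact hp2
    have h3 : (3 : ZMod l) ≠ 0 := by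
      intro h0
      have h1 : ((3 : ℕ) : ZMod l) = 0 := by exact_mod_cast h0
      rw [ZMod.natCast_eq_zero_iff] at h1
      exact h (h1.trans (by norm_num))
    have h27 : (27 : ZMod l) ≠ 0 := by
      rw [show (27 : ZMod l) = 3 * (3 * 3) by norm_num]
      exact mul_ne_zero h3 (mul_ne_zero h3 h3)
    have h9 := W165.CE.hasse hF (225 - 34 ^ 2 / 3 : ZMod l)
      (34 * 225 / 3 - 2 * 34 ^ 3 / 27)
    rw [ZMod.card] at h9
    have e : Nat.card {x : ZMod l × ZMod l // x.2 ^ 2 = x.1 ^ 3 + (225 - 34 ^ 2 / 3) * x.1 +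
        (34 * 225 / 3 - 2 * 34 ^ 3 / 27)} = affCount E15 l := by
      rw [← WT_one]
      unfold affCount
      rw [pts_cubic (by norm_num) (ZMod l) (two_ne hp2)]
      refine Nat.card_congr
        { toFun := fun x => ⟨(x.1.1 + 34 / 3, x.1.2), ?_⟩
          invFun := fun x => ⟨(x.1.1 - 34 / 3, x.1.2), ?_⟩
          left_inv := fun x => ?_
          right_inv := fun x => ?_ }
      · have h := x.2
        show x.1.2 ^ 2 = (x.1.1 + 34 / 3) * (x.1.1 + 34 / 3 - 9 * ((1 : ℤ) : ZMod l)) *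
          (x.1.1 + 34 / 3 - 25 * ((1 : ℤ) : ZMod l))
        rw [h, Int.cast_one]
        field_simp
        ring
      · obtain ⟨⟨a, b⟩, h⟩ := x
        show b ^ 2 = (a - 34 / 3) ^ 3 + (225 - 34 ^ 2 / 3) * (a - 34 / 3) +
          (34 * 225 / 3 - 2 * 34 ^ 3 / 27)
        have h' : b ^ 2 = a * (a - 9 * ((1 : ℤ) : ZMod l)) * (a - 25 * ((1 : ℤ) : ZMod l)) := h
        rw [h', Int.cast_one]
        field_simp
        ring
      · apply Subtype.ext
        apply Prod.ext
        · show x.1.1 + 34 / 3 - 34 / 3 = x.1.1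
          ring
        · rfl
      · apply Subtype.ext
        apply Prod.ext
        · show x.1.1 - 34 / 3 + 34 / 3 = x.1.1
          ring
        · rfl
    rw [e] at h9
    unfold ap
    push_cast at h9 ⊢
    exact h9

end Run7.h555.P15
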