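import Pool.Agent.TH940.Cen
import Pool.Agent.W378.CY.AFE0
import Pool.Agent.W612.CY.COEF
import Pool.Agent.W216.CY.Div
import Pool.Agent.W97.TW.Hecke
import Pool.Agent.W97.TW.Euler

/-!
The twisted `L`-functions of a newform of weight two: entire continuation, Euler product and central
value (the level `14` case is in `Pool.Agent.Y687.Lval`, this is the general form of that proof).
-/

set_option autoImplicit false
set_option linter.style.haveILetI false
set_option linter.unusedSectionVars false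

open Complex Filter Topology Set UpperHalfPlane MatrixGroups CongruenceSubgroup ZMod

namespace Run7.h555.P15

open Pool.Agent.W97.TW Pool.Agent.W440.TW Pool.Agent.W108.TW

/-- the facts on the form -/
structure Facts (N : ℕ) (f : CuspForm (Gamma0 N : Subgroup (GL (Fin 2) ℝ)) 2) (a : ℕ → ℤ) : Prop where
  int : ∀ n : ℕ, ∃ c : ℤ, (qExpansion 1 f).coeff n = (c : ℂ)
  one : (qExpansion 1 f).coeff 1 = 1
  pr : ∀ l : ℕ, l.Prime → (qExpansion 1 f).coeff l = (a l : ℂ)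
  hecke : ∀ (p : ℕ), p.Prime → ∀ z : ℍ, heckeT N 2 p f z = (a p : ℂ) * f z
  fricke : ∃ w : ℝ, (w = 1 ∨ w = -1) ∧ ∀ τ τ' : ℍ, (τ' : ℂ) * ((N : ℂ) * (τ : ℂ)) = -1 →
    f τ' = -(w : ℂ) * (N : ℂ) * (τ : ℂ) ^ 2 * f τ
  good : ∀ l : ℕ, l.Prime → ¬ l ∣ N → |(a l : ℝ)| ≤ 2 * Real.sqrt l
  bad : ∀ l : ℕ, l.Prime → l ∣ N → |(a l : ℝ)| ≤ 1

/-- the coefficients of the form -/
noncomputable def cc {N : ℕ} (f : CuspForm (Gamma0 N : Subgroup (GL (Fin 2) ℝ)) 2) (n : ℕ) : ℂ :=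
  (qExpansion 1 f).coeff n

variable {N : ℕ} [NeZero N] {f : CuspForm (Gamma0 N : Subgroup (GL (Fin 2) ℝ)) 2} {a : ℕ → ℤ}
  (H : Facts N f a)

include H

/-- the Hecke relation at `p` -/
theorem Facts.rec' (p : ℕ) (hp : p.Prime) (m : ℕ) :
    (qExpansion 1 f).coeff (p * m) = (qExpansion 1 f).coeff p *
      (qExpansion 1 f).coeff m - (if p ∣ N then 0 else
        (p : ℂ) * (if p ∣ m then (qExpansion 1 f).coeff (m / p) else 0)) := by
  have h := hecke_rec f hp.pos (H.hecke p hp) m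
  unfold B A at h
  rw [← H.pr p hp] at h
  have e : (p : ℂ) ^ ((2 : ℤ) - 1) = p := by norm_num
  rw [e] at h
  rw [← h]
  split_ifs <;> ring

theorem Facts.rec_pow (p : ℕ) (hp : p.Prime) (m : ℕ) (hm : ¬ p ∣ m) (j : ℕ) :
    (qExpansion 1 f).coeff (p ^ j * m) = (qExpansion 1 f).coeff (p ^ j) *
      (qExpansion 1 f).coeff m := by
  have h1 := H.one
  induction j using Nat.strong_induction_on with
  | _ j ih =>
    match j with
    | 0 => rw [pow_zero, one_mul, h1, one_mul]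
    | 1 =>
      rw [pow_one, H.rec' p hp m, if_neg hm]
      split_ifs <;> ring
    | j + 2 =>
      have e1 : p ^ (j + 2) * m = p * (p ^ (j + 1) * m) := by ring
      have e2 : p ^ (j + 2) = p * p ^ (j + 1) := by ring
      have d1 : p ∣ p ^ (j + 1) * m := Dvd.dvd.mul_right (dvd_pow_self p (by omega)) m
      have d2 : p ∣ p ^ (j + 1) := dvd_pow_self p (by omega)
      have q1 : p ^ (j + 1) * m / p = p ^ j * m := by
        rw [show p ^ (j + 1) * m = p * (p ^ j * m) by ring, Nat.mul_div_cancel_left _ hp.pos]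
      have q2 : p ^ (j + 1) / p = p ^ j := by
        rw [show p ^ (j + 1) = p * p ^ j by ring, Nat.mul_div_cancel_left _ hp.pos]
      rw [e1, e2, H.rec' p hp (p ^ (j + 1) * m), H.rec' p hp (p ^ (j + 1)), if_pos d1, if_pos d2, q1, q2,
        ih (j + 1) (by omega), ih j (by omega)]
      split_ifs <;> ring

theorem Facts.mul (m n : ℕ) (h : Nat.Coprime m n) :
    (qExpansion 1 f).coeff (m * n) = (qExpansion 1 f).coeff m *
      (qExpansion 1 f).coeff n := by
  have h1 := H.one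
  induction m using Nat.strong_induction_on generalizing n with
  | _ m ih =>
    rcases Nat.eq_zero_or_pos m with rfl | hm
    · have hn : n = 1 := by simpa using h
      subst hn
      rw [mul_one, h1, mul_one]
    by_cases hm1 : m = 1
    · subst hm1
      rw [one_mul, h1, one_mul]
    set p := m.minFac with hp
    have hpp : p.Prime := Nat.minFac_prime hm1
    obtain ⟨j, m', hm', he⟩ := Nat.exists_eq_pow_mul_and_not_dvd hm.ne' p hpp.ne_one
    have hj : j ≠ 0 := by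
      rintro rfl
      rw [pow_zero, one_mul] at he
      exact hm' (he ▸ Nat.minFac_dvd m)
    have hpn : ¬ p ∣ n := by
      intro hd
      have := Nat.dvd_gcd (Nat.minFac_dvd m) hd
      rw [h] at this
      exact hpp.one_lt.ne' (Nat.dvd_one.1 this)
    have hm'0 : 0 < m' := Nat.pos_of_ne_zero fun h0 => hm' (h0 ▸ dvd_zero p)
    have hlt : m' < m := by
      rw [he]
      have : 1 < p ^ j := Nat.one_lt_pow hj hpp.one_lt
      nlinarith
    have hc : Nat.Coprime m' n := Nat.Coprime.coprime_dvd_left (he ▸ Dvd.intro_left _ rfl) h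
    have hnd : ¬ p ∣ m' * n := by
      intro hd
      rcases (Nat.Prime.dvd_mul hpp).1 hd with h2 | h2
      · exact hm' h2
      · exact hpn h2
    rw [he, mul_assoc, H.rec_pow p hpp (m' * n) hnd j, H.rec_pow p hpp m' hm' j, ih m' hlt n hc]
    ring

theorem Facts.pow (p j : ℕ) (hp : p.Prime) : (qExpansion 1 f).coeff (p ^ (j + 2)) =
    (qExpansion 1 f).coeff p * (qExpansion 1 f).coeff (p ^ (j + 1)) -
      (if p ∣ N then 0 else (p : ℂ) * (qExpansion 1 f).coeff (p ^ j)) := by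
  have e2 : p ^ (j + 2) = p * p ^ (j + 1) := by ring
  have d2 : p ∣ p ^ (j + 1) := dvd_pow_self p (by omega)
  have q2 : p ^ (j + 1) / p = p ^ j := by
    rw [show p ^ (j + 1) = p * p ^ j by ring, Nat.mul_div_cancel_left _ hp.pos]
  rw [e2, H.rec' p hp (p ^ (j + 1)), if_pos d2, q2]


theorem Facts.cc_re (n : ℕ) : cc f n = (((cc f n).re : ℝ) : ℂ) := by
  obtain ⟨c, hc⟩ := H.int n
  unfold cc
  rw [hc]
  simp

omit H in
theorem cc_zero : cc f 0 = 0 := W388.coeff_zero f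

theorem Facts.cc_one : cc f 1 = 1 := H.one

theorem Facts.newf : ∃ w : ℝ, (w = 1 ∨ w = -1) ∧ W388.IsNewf N 2 f w := by
  obtain ⟨w, hw, hfr⟩ := H.fricke
  refine ⟨w, hw, H.cc_one, ?_, fun m n h => H.mul m n h, ?_, hw, ?_⟩
  · intro n
    have := H.cc_re n
    change (cc f n).im = 0
    rw [this]
    simp
  · intro p j hp
    have h1 := H.pow p j hp
    rw [h1]
    norm_num
  · intro τ τ' h
    rw [hfr τ τ' h]
    congr 1
    have hI : Complex.I ^ 2 = -1 := Complex.I_sq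
    have hsq : ((Real.sqrt (N : ℝ) : ℝ) : ℂ) ^ 2 = (N : ℂ) := by
      have h1 : (Real.sqrt (N : ℝ)) ^ 2 = (N : ℝ) := Real.sq_sqrt (Nat.cast_nonneg N)
      have := congrArg (fun x : ℝ => (x : ℂ)) h1
      push_cast at this ⊢
      exact this
    have : (((Real.sqrt (N : ℝ) : ℝ) : ℂ) * (τ : ℂ) / Complex.I) ^ (2 : ℤ) =
        -((N : ℂ) * (τ : ℂ) ^ 2) := by
      rw [zpow_ofNat, div_pow, mul_pow, hsq, hI]
      ring
    rw [this]
    ring

theorem Facts.coef : Pool.Agent.W192.CY.Coef N (fun n => (cc f n).re) := by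
  have hp : ∀ l : ℕ, l.Prime → (cc f l).re = (a l : ℝ) := by
    intro l hl
    unfold cc
    rw [H.pr l hl]
    simp
  refine ⟨?_, ?_, ?_, ?_, ?_, ?_⟩
  · rw [cc_zero]; simp
  · rw [H.cc_one]; simp
  · intro m n hmn
    have h : cc f (m * n) = cc f m * cc f n := H.mul m n hmn
    rw [H.cc_re, H.cc_re m, H.cc_re n] at h
    exact_mod_cast h
  · intro p j hp
    have h : cc f (p ^ (j + 2)) = cc f p * cc f (p ^ (j + 1)) -
      (if p ∣ N then 0 else (p : ℂ) * cc f (p ^ j)) := H.pow p j hp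
    rw [H.cc_re, H.cc_re p, H.cc_re (p ^ (j + 1)), H.cc_re (p ^ j)] at h
    split_ifs at h ⊢ with hpN
    · rw [sub_zero] at h ⊢
      exact_mod_cast h
    · exact_mod_cast h
  · intro p hpp hpN
    simp only [hp p hpp]
    exact H.good p hpp hpN
  · intro p hpp hpN
    simp only [hp p hpp]
    exact H.bad p hpp hpN

theorem Facts.cc_bound (ε : ℝ) (hε : 0 < ε) : ∃ C : ℝ, 0 < C ∧
    ∀ n : ℕ, 1 ≤ n → ‖cc f n‖ ≤ C * (n : ℝ) ^ (1 / 2 + ε) := by
  obtain ⟨m, hm⟩ := W612.CY.t_coef N _ H.coef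
  obtain ⟨C, hC, h1, -⟩ := Pool.Agent.W216.CY.t_div ε hε
  refine ⟨C, hC, fun n hn => ?_⟩
  have h2 := hm.cle n hn
  have h3 : ‖cc f n‖ = |(cc f n).re| := by
    conv_lhs => rw [H.cc_re n, Complex.norm_real, Real.norm_eq_abs]
  rw [h3]
  have hn0 : (0 : ℝ) < n := by exact_mod_cast hn
  calc |(cc f n).re| ≤ n.divisors.card * Real.sqrt n := h2
    _ ≤ (C * (n : ℝ) ^ ε) * Real.sqrt n := by gcongr; exact h1 n hn
    _ = C * (n : ℝ) ^ (1 / 2 + ε) := by
      rw [Real.sqrt_eq_rpow, mul_assoc, ← Real.rpow_add hn0]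
      ring_nf

theorem Facts.cc_summable {q : ℕ} (χ : DirichletCharacter ℂ q) (s : ℂ) (hs : 3 / 2 < s.re) :
    Summable (fun n : ℕ => ‖cc f n * χ n * (n : ℂ) ^ (-s)‖) := by
  obtain ⟨C, hC, hb⟩ := H.cc_bound ((s.re - 3 / 2) / 2) (by linarith)
  have hs2 : Summable (fun n : ℕ => C * (n : ℝ) ^ (1 / 2 + (s.re - 3 / 2) / 2 - s.re)) :=
    (Real.summable_nat_rpow.mpr (by linarith)).mul_left C
  refine Summable.of_nonneg_of_le (fun n => norm_nonneg _) (fun n => ?_) hs2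
  rcases Nat.eq_zero_or_pos n with hn | hn
  · subst hn
    rw [cc_zero]
    simp only [zero_mul, norm_zero]
    positivity
  · have hnpos : (0 : ℝ) < n := by exact_mod_cast hn
    rw [norm_mul, norm_mul]
    have h2 : ‖χ n‖ ≤ 1 := DirichletCharacter.norm_le_one χ _
    have h3 : ‖(n : ℂ) ^ (-s)‖ = (n : ℝ) ^ (-s.re) := by
      rw [← Complex.ofReal_natCast, Complex.norm_cpow_eq_rpow_re_of_pos hnpos]
      simp
    rw [h3]
    have hCn : 0 ≤ C * (n : ℝ) ^ (1 / 2 + (s.re - 3 / 2) / 2) := by positivity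
    calc ‖cc f n‖ * ‖χ n‖ * (n : ℝ) ^ (-s.re)
        ≤ (C * (n : ℝ) ^ (1 / 2 + (s.re - 3 / 2) / 2)) * 1 * (n : ℝ) ^ (-s.re) := by
          gcongr
          exact hb n hn
      _ = C * (n : ℝ) ^ (1 / 2 + (s.re - 3 / 2) / 2 - s.re) := by
          rw [mul_one, mul_assoc, ← Real.rpow_add hnpos]
          ring_nf

omit [NeZero N] H in
/-- Euler product for multiplicative sequences with quadratic recursion -/
theorem euler_prod (e : Nat.Primes → ℂ) (l : ℕ → ℂ) (h0 : l 0 = 0) (h1 : l 1 = 1)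
    (hm : ∀ m n : ℕ, Nat.Coprime m n → l (m * n) = l m * l n)
    (hrec : ∀ (p : Nat.Primes) (j : ℕ), l ((p : ℕ) ^ (j + 2)) =
      l p * l ((p : ℕ) ^ (j + 1)) - e p * l ((p : ℕ) ^ j))
    {q : ℕ} (χ : DirichletCharacter ℂ q) (s : ℂ)
    (hsum : Summable (fun n : ℕ => ‖l n * χ n * (n : ℂ) ^ (-s)‖)) :
    HasProd (fun p : Nat.Primes =>
      (1 - l p * χ p * (p : ℂ) ^ (-s) + e p * (χ p) ^ 2 * (p : ℂ) ^ (-2 * s))⁻¹)
      (∑' n : ℕ, l n * χ n * (n : ℂ) ^ (-s)) := by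
  set f : ℕ → ℂ := fun n => l n * χ n * (n : ℂ) ^ (-s) with hf
  have hf1 : f 1 = 1 := by simp [hf, h1]
  have hf0 : f 0 = 0 := by simp [hf, h0]
  have hmul : ∀ {m n : ℕ}, Nat.Coprime m n → f (m * n) = f m * f n := by
    intro m n hmn
    simp only [hf]
    rw [hm m n hmn, Nat.cast_mul, map_mul, Nat.cast_mul, Complex.natCast_mul_natCast_cpow]
    ring
  have hprod := EulerProduct.eulerProduct_hasProd hf1 hmul hsum hf0
  have hterm : ∀ p : Nat.Primes, ∑' j : ℕ, f ((p : ℕ) ^ j) =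
      (1 - l p * χ p * (p : ℂ) ^ (-s) + e p * (χ p) ^ 2 * (p : ℂ) ^ (-2 * s))⁻¹ := by
    intro p
    have hp1 : 1 < (p : ℕ) := p.2.one_lt
    have hsp : Summable (fun j : ℕ => f ((p : ℕ) ^ j)) :=
      (Summable.of_norm hsum).comp_injective (Nat.pow_right_injective hp1)
    set X : ℂ := χ p * (p : ℂ) ^ (-s) with hX
    have hpow : ∀ j : ℕ, f ((p : ℕ) ^ j) = l ((p : ℕ) ^ j) * X ^ j := by
      intro j
      simp only [hf]
      rw [Nat.cast_pow, map_pow, Nat.cast_pow, mul_assoc, hX, mul_pow]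
      rw [Pool.Agent.W97.TW.natCast_pow_cpow]
    have hX2 : (χ p) ^ 2 * (p : ℂ) ^ (-2 * s) = X ^ 2 := by
      rw [hX, mul_pow, ← Complex.cpow_nat_mul]
      congr 2
      push_cast; ring
    have hr : ∀ j : ℕ, f ((p : ℕ) ^ (j + 2)) =
        l p * X * f ((p : ℕ) ^ (j + 1)) - e p * X ^ 2 * f ((p : ℕ) ^ j) := by
      intro j
      rw [hpow, hpow, hpow, hrec]
      ring
    set S : ℂ := ∑' j : ℕ, f ((p : ℕ) ^ j) with hS
    have hs1 : S = 1 + ∑' j : ℕ, f ((p : ℕ) ^ (j + 1)) := by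
      rw [hS, hsp.tsum_eq_zero_add]
      simp [hf1]
    have hsp1 : Summable (fun j : ℕ => f ((p : ℕ) ^ (j + 1))) :=
      (summable_nat_add_iff 1).mpr hsp
    have hs2 : S = 1 + l p * X + ∑' j : ℕ, f ((p : ℕ) ^ (j + 2)) := by
      rw [hs1, hsp1.tsum_eq_zero_add]
      have : f ((p : ℕ) ^ (0 + 1)) = l p * X := by
        rw [hpow]
        simp
      rw [this]
      ring_nf
    have hs3 : ∑' j : ℕ, f ((p : ℕ) ^ (j + 2)) =
        l p * X * ∑' j : ℕ, f ((p : ℕ) ^ (j + 1)) - e p * X ^ 2 * S := by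
      rw [hS, ← tsum_mul_left, ← tsum_mul_left, ← (hsp1.mul_left _).tsum_sub (hsp.mul_left _)]
      exact tsum_congr hr
    have hs4 : ∑' j : ℕ, f ((p : ℕ) ^ (j + 1)) = S - 1 := by rw [hs1]; ring
    have hfin : S * (1 - l p * X + e p * X ^ 2) = 1 := by
      rw [hs3, hs4] at hs2
      linear_combination hs2
    rw [mul_assoc (e p), hX2]
    rw [show 1 - l p * χ p * (p : ℂ) ^ (-s) + e p * X ^ 2 = 1 - l p * X + e p * X ^ 2 by
      rw [hX]; ring]
    exact eq_inv_of_mul_eq_one_left hfin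
  have hfun : (fun p : Nat.Primes => ∑' j : ℕ, f ((p : ℕ) ^ j)) = (fun p : Nat.Primes =>
      (1 - l p * χ p * (p : ℂ) ^ (-s) + e p * (χ p) ^ 2 * (p : ℂ) ^ (-2 * s))⁻¹) := funext hterm
  rw [hfun] at hprod
  exact hprod

theorem Facts.cc_euler {q : ℕ} (χ : DirichletCharacter ℂ q) (s : ℂ) (hs : 3 / 2 < s.re) :
    HasProd (fun p : Nat.Primes =>
      (1 - (a p : ℂ) * χ p * (p : ℂ) ^ (-s) +
        (if (p : ℕ) ∣ N then 0 else (p : ℂ)) * (χ p) ^ 2 * (p : ℂ) ^ (-2 * s))⁻¹)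
      (∑' n : ℕ, cc f n * χ n * (n : ℂ) ^ (-s)) := by
  have h := euler_prod (fun p => if (p : ℕ) ∣ N then 0 else (p : ℂ)) (cc f) cc_zero H.cc_one
    (fun m n hmn => H.mul m n hmn) (fun p j => ?_) χ s (H.cc_summable χ s hs)
  · refine (congrArg (fun g => HasProd g _) (funext fun p => ?_)).mp h
    have h2 : cc f p = (a p : ℂ) := H.pr p p.2
    rw [h2]
  · have h1 : cc f ((p : ℕ) ^ (j + 2)) = cc f p * cc f ((p : ℕ) ^ (j + 1)) -
      (if (p : ℕ) ∣ N then 0 else (p : ℂ) * cc f ((p : ℕ) ^ j)) := H.pow p j p.2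
    rw [h1]
    split_ifs <;> ring

end Run7.h555.P15
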